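import Pool.Agent.N426.FP.Step

/-!
# Averages along fractional powers with exponents less than one: asymptotics

By helper426.
-/

set_option autoImplicit false
set_option linter.unusedSectionVars false

namespace Pool.Agent.N426.FP

open Finset Filter Topology

lemma powlin {r : ℝ} (hr0 : 0 < r) (hr1 : r < 1) (η : ℝ) (hη : 0 < η) :
    ∃ C : ℝ, 0 ≤ C ∧ ∀ x : ℝ, 0 ≤ x → x ^ r ≤ η * x + C := by
  have hr : 0 < 1 - r := by linarith
  refine ⟨(1 / η) ^ (r / (1 - r)), by positivity, fun x hx => ?_⟩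
  by_cases h : x ≤ (1 / η) ^ (1 / (1 - r))
  · have h1 := Real.rpow_le_rpow hx h hr0.le
    rw [← Real.rpow_mul (by positivity)] at h1
    have e : 1 / (1 - r) * r = r / (1 - r) := by ring
    rw [e] at h1
    have h2 : 0 ≤ η * x := by positivity
    linarith
  · push Not at h
    have hx0 : 0 < x := lt_of_le_of_lt (by positivity) h
    have h1 := Real.rpow_le_rpow (by positivity) h.le hr.le
    rw [← Real.rpow_mul (by positivity), one_div_mul_cancel hr.ne', Real.rpow_one] at h1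
    have h2 : x ^ r * x ^ (1 - r) = x := by
      rw [← Real.rpow_add hx0]
      have e : r + (1 - r) = 1 := by ring
      rw [e, Real.rpow_one]
    have h3 : x ^ r * (1 / η) ≤ x := by
      calc x ^ r * (1 / η) ≤ x ^ r * x ^ (1 - r) :=
            mul_le_mul_of_nonneg_left h1 (by positivity)
        _ = x := h2
    have h4 : x ^ r ≤ η * x := by
      rw [mul_one_div, div_le_iff₀ hη] at h3
      linarith
    have h5 : 0 ≤ (1 / η) ^ (r / (1 - r)) := by positivity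
    linarith

/-- the error function -/
noncomputable def Ph (q r A E K : ℝ) (x : ℝ) : ℝ :=
  2 * q * A * x ^ (-(1 : ℝ)) + E * x ^ (-(q - 1)) +
    2 * E * K * (q * x ^ (-(1 - r)) + q * x ^ (-(1 : ℝ)) + x ^ (-(q - r)) + x ^ (-q)) +
    E * (q * x ^ (-(1 : ℝ)) + 2 * x ^ (-q))

lemma Ph_tendsto {q r A E K : ℝ} (hq : 1 < q) (hr1 : r < 1) :
    Tendsto (Ph q r A E K) atTop (𝓝 0) := by
  have t1 := tendsto_rpow_neg_atTop (show (0 : ℝ) < 1 by norm_num)
  have t2 := tendsto_rpow_neg_atTop (show (0 : ℝ) < q - 1 by linarith)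
  have t3 := tendsto_rpow_neg_atTop (show (0 : ℝ) < 1 - r by linarith)
  have t4 := tendsto_rpow_neg_atTop (show (0 : ℝ) < q - r by linarith)
  have t5 := tendsto_rpow_neg_atTop (show (0 : ℝ) < q by linarith)
  have h := (((t1.const_mul (2 * q * A)).add (t2.const_mul E)).add
    ((((t3.const_mul q).add (t1.const_mul q)).add t4).add t5 |>.const_mul (2 * E * K))).add
    (((t1.const_mul q).add (t5.const_mul 2)).const_mul E)
  simp only [mul_zero, add_zero] at h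
  exact h

lemma Ph_mul {q r A E K x : ℝ} (hx : 0 < x) :
    Ph q r A E K x * x ^ q = 2 * (q * x ^ (q - 1)) * A + x * E +
      (q * x ^ (q - 1) + 1) * (2 * E) * (K * (x ^ r + 1)) + E * (q * x ^ (q - 1) + 2) := by
  have e1 : x ^ (-(1 : ℝ)) * x ^ q = x ^ (q - 1) := by
    rw [← Real.rpow_add hx]; congr 1; ring
  have e2 : x ^ (-(q - 1)) * x ^ q = x := by
    rw [← Real.rpow_add hx]
    have e : -(q - 1) + q = 1 := by ring
    rw [e, Real.rpow_one]
  have e3 : x ^ (-(1 - r)) * x ^ q = x ^ (q - 1) * x ^ r := by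
    rw [← Real.rpow_add hx, ← Real.rpow_add hx]; congr 1; ring
  have e4 : x ^ (-(q - r)) * x ^ q = x ^ r := by
    rw [← Real.rpow_add hx]; congr 1; ring
  have e5 : x ^ (-q) * x ^ q = 1 := by
    rw [← Real.rpow_add hx]
    have e : -q + q = 0 := by ring
    rw [e, Real.rpow_zero]
  rw [Ph]
  linear_combination (2 * q * A + 2 * E * K * q + E * q) * e1 + E * e2 + 2 * E * K * q * e3 +
    2 * E * K * e4 + (2 * E * K + 2 * E) * e5

section abstr

variable {R : Type} [CommRing R] [Algebra ℝ R]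
variable {p : Seminorm ℝ R} {Bd : ℝ → R → Prop}

/-- one step: the fastest sequence can be replaced by its limit -/
lemma lemC (h : Fr p Bd) {c c' : ℝ} (hc : 0 < c) (hc1 : c < 1) (hc' : 0 < c') (hcc : c' < c)
    {u W : ℕ → R} {F : R} {B D K : ℝ} (hu : ∀ m, p (u m - F) ≤ B) (hW : ∀ m, Bd D (W m))
    (hunif : ∀ ε > 0, ∃ H : ℕ, 1 ≤ H ∧ ∀ M, p (∑ i ∈ range H, (u (M + i) - F)) ≤ ε * H)
    (β : ℕ → ℕ) (hβ : Monotone β) (hWβ : ∀ m m', m ≤ m' → β m = β m' → W m = W m')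
    (hK : 0 ≤ K) (hβK : ∀ n : ℕ, (β n : ℝ) ≤ K * (n : ℝ) ^ c') :
    ∀ ε > 0, ∀ᶠ N : ℕ in atTop,
      p (∑ n ∈ Icc 1 N, (u ⌊(n : ℝ) ^ c⌋₊ - F) * W n) ≤ ε * N := by
  intro ε hε
  have hq : 1 < 1 / c := by rw [lt_div_iff₀ hc]; linarith
  have hr0 : 0 < c' / c := by positivity
  have hr1 : c' / c < 1 := by rw [div_lt_one hc]; exact hcc
  have hD : 0 ≤ D := h.nonneg (hW 0)
  have hB : 0 ≤ B := (apply_nonneg p _).trans (hu 0)
  have hterm : ∀ l m, p ((u l - F) * W m) ≤ D * B := by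
    intro l m
    rw [mul_comm]
    exact (h.mul_le D _ _ (hW m)).trans (mul_le_mul_of_nonneg_left (hu l) hD)
  -- the growth of `β ∘ ν`
  have hβν : ∀ m : ℕ, (β (nu c m) : ℝ) ≤ K * ((m : ℝ) ^ (c' / c) + 1) := by
    intro m
    refine (hβK _).trans (mul_le_mul_of_nonneg_left ?_ hK)
    have h1 : (nu c m : ℝ) ≤ (m : ℝ) ^ (1 / c) + 1 :=
      (Nat.ceil_lt_add_one (by positivity)).le
    refine (Real.rpow_le_rpow (Nat.cast_nonneg _) h1 hc'.le).trans ?_
    refine (Real.rpow_add_le_add_rpow (by positivity) zero_le_one hc'.le (by linarith)).trans ?_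
    rw [Real.one_rpow, ← Real.rpow_mul (Nat.cast_nonneg m)]
    have e : 1 / c * c' = c' / c := by ring
    rw [e]
  have hβo : ∀ η > 0, ∃ C : ℝ, ∀ m : ℕ, (β (nu c m) : ℝ) ≤ η * m + C := by
    intro η hη
    obtain ⟨C, hC0, hC⟩ := powlin hr0 hr1 (η / (K + 1)) (by positivity)
    refine ⟨K * (C + 1), fun m => (hβν m).trans ?_⟩
    have h1 := mul_le_mul_of_nonneg_left (hC m (Nat.cast_nonneg m)) hK
    have h2 : K * (η / (K + 1) * m) ≤ η * m := by
      have h3 : K * (η / (K + 1)) ≤ η := by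
        rw [mul_div_assoc', div_le_iff₀ (by positivity)]
        nlinarith
      calc K * (η / (K + 1) * m) = K * (η / (K + 1)) * m := by ring
        _ ≤ η * m := mul_le_mul_of_nonneg_right h3 (Nat.cast_nonneg m)
    nlinarith
  set ε' : ℝ := ε / ((2 * (1 / c) + 1) * 2 ^ (1 / c)) with hε'
  have hε'0 : 0 < ε' := by positivity
  obtain ⟨C, hC0, hC⟩ := lemA h (w := fun l => W (nu c l)) hu (fun m => hW _) hunif
    (fun m => β (nu c m)) (fun a b hab => hβ (nu_mono hc hab))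
    (fun m m' hm he => hWβ _ _ (nu_mono hc hm) he) hβo ε' hε'0
  have hPh := (Ph_tendsto (q := 1 / c) (r := c' / c) (A := C) (E := D * B) (K := K) hq
    hr1).eventually_le_const hε'0
  have hlim : Tendsto (fun N : ℕ => ((⌊(N : ℝ) ^ c⌋₊ + 1 : ℕ) : ℝ)) atTop atTop := by
    refine tendsto_atTop_mono (fun N : ℕ => ?_) ((tendsto_rpow_atTop hc).comp
      tendsto_natCast_atTop_atTop)
    have := Nat.lt_floor_add_one ((N : ℝ) ^ c)
    push_cast
    exact this.le
  filter_upwards [hlim.eventually hPh, eventually_ge_atTop 1] with N hN1 hN2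
  set M : ℕ := ⌊(N : ℝ) ^ c⌋₊ + 1 with hM
  have hM1 : 1 ≤ M := by omega
  have hMpos : (0 : ℝ) < M := by exact_mod_cast hM1
  have hnu1 : nu c (M - 1) ≤ N := by
    rw [← level hc]
    omega
  have hnu2 : N < nu c M := by
    by_contra hcon
    have := (level hc M N).2 (by omega)
    omega
  have hC1 := lemC1 h hc hc1 hu hW β hβ hWβ ε' C hC hε'0.le M hM1
  have hg : gg (1 / c) (M - 1) ≤ 1 / c * (M : ℝ) ^ (1 / c - 1) := by
    have h1 := gg_le hq.le (M - 1)
    have e : ((M - 1 : ℕ) : ℝ) + 1 = M := by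
      rw [Nat.cast_sub hM1]
      push_cast
      ring
    rwa [e] at h1
  have hg0 : 0 ≤ gg (1 / c) (M - 1) := gg_nonneg hq.le _
  -- from the full blocks to `N`
  have hsum : ∑ n ∈ range (nu c M), (u ⌊(n : ℝ) ^ c⌋₊ - F) * W n =
      (∑ n ∈ Icc 1 N, (u ⌊(n : ℝ) ^ c⌋₊ - F) * W n) +
      ((u ⌊((0 : ℕ) : ℝ) ^ c⌋₊ - F) * W 0 +
      ∑ n ∈ Ico (N + 1) (nu c M), (u ⌊(n : ℝ) ^ c⌋₊ - F) * W n) := by
    have e1 : Icc 1 N = Ico 1 (N + 1) := rfl
    rw [e1, Finset.range_eq_Ico, ← Finset.sum_Ico_consecutive _ (Nat.zero_le 1) (show 1 ≤ nu c M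
      by omega), ← Finset.sum_Ico_consecutive _ (show 1 ≤ N + 1 by omega)
      (show N + 1 ≤ nu c M by omega)]
    rw [Nat.Ico_zero_eq_range, Finset.sum_range_one]
    abel
  have hrest : p (∑ n ∈ Ico (N + 1) (nu c M), (u ⌊(n : ℝ) ^ c⌋₊ - F) * W n) ≤
      (gg (1 / c) (M - 1) + 1) * (D * B) := by
    refine (p_sum_le _ _).trans ?_
    refine (Finset.sum_le_sum fun i _ => hterm _ i).trans ?_
    rw [Finset.sum_const, Nat.card_Ico, nsmul_eq_mul]
    refine mul_le_mul_of_nonneg_right ?_ (by positivity)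
    have h1 := (abs_le.1 (nu_sub (c := c) (M - 1))).2
    rw [Nat.sub_add_cancel hM1] at h1
    rw [Nat.cast_sub (show N + 1 ≤ nu c M by omega)]
    have h2 : (nu c (M - 1) : ℝ) ≤ N := by exact_mod_cast hnu1
    push_cast
    linarith
  have hmain : p (∑ n ∈ Icc 1 N, (u ⌊(n : ℝ) ^ c⌋₊ - F) * W n) ≤
      p (∑ n ∈ range (nu c M), (u ⌊(n : ℝ) ^ c⌋₊ - F) * W n) +
      (D * B + (gg (1 / c) (M - 1) + 1) * (D * B)) := by
    have e : ∑ n ∈ Icc 1 N, (u ⌊(n : ℝ) ^ c⌋₊ - F) * W n =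
      (∑ n ∈ range (nu c M), (u ⌊(n : ℝ) ^ c⌋₊ - F) * W n) -
      ((u ⌊((0 : ℕ) : ℝ) ^ c⌋₊ - F) * W 0 +
      ∑ n ∈ Ico (N + 1) (nu c M), (u ⌊(n : ℝ) ^ c⌋₊ - F) * W n) := by
      rw [hsum]
      abel
    rw [e]
    refine (map_sub_le_add p _ _).trans (add_le_add le_rfl ?_)
    exact (map_add_le_add p _ _).trans (add_le_add (hterm _ _) hrest)
  have hPm := Ph_mul (q := 1 / c) (r := c' / c) (A := C) (E := D * B) (K := K) hMpos
  have hMq : 0 ≤ (M : ℝ) ^ (1 / c) := by positivity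
  have hb1 : Ph (1 / c) (c' / c) C (D * B) K M * (M : ℝ) ^ (1 / c) ≤ ε' * (M : ℝ) ^ (1 / c) :=
    mul_le_mul_of_nonneg_right hN1 hMq
  have hsplit : (M : ℝ) ^ (1 / c) = (M : ℝ) ^ (1 / c - 1) * M := by
    rw [← Real.rpow_add_one hMpos.ne']
    congr 1
    ring
  have hE : 0 ≤ D * B := by positivity
  have hb2 : p (∑ n ∈ Icc 1 N, (u ⌊(n : ℝ) ^ c⌋₊ - F) * W n) ≤
      2 * (1 / c) * ε' * (M : ℝ) ^ (1 / c) +
        Ph (1 / c) (c' / c) C (D * B) K M * (M : ℝ) ^ (1 / c) := by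
    refine hmain.trans ((add_le_add hC1 le_rfl).trans ?_)
    rw [hPm]
    have s1 : 2 * gg (1 / c) (M - 1) * (ε' * M + C) ≤
        2 * (1 / c * (M : ℝ) ^ (1 / c - 1)) * (ε' * M + C) :=
      mul_le_mul_of_nonneg_right (by linarith) (by positivity)
    have s2 : (gg (1 / c) (M - 1) + 1) * (2 * (D * B)) * β (nu c M) ≤
        (1 / c * (M : ℝ) ^ (1 / c - 1) + 1) * (2 * (D * B)) *
          (K * ((M : ℝ) ^ (c' / c) + 1)) := by
      refine mul_le_mul (mul_le_mul_of_nonneg_right (by linarith) (by positivity)) (hβν M)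
        (Nat.cast_nonneg _) (by positivity)
    have s3 : (gg (1 / c) (M - 1) + 1) * (D * B) ≤
        (1 / c * (M : ℝ) ^ (1 / c - 1) + 1) * (D * B) :=
      mul_le_mul_of_nonneg_right (by linarith) hE
    have s4 : 2 * (1 / c * (M : ℝ) ^ (1 / c - 1)) * (ε' * M + C) =
        2 * (1 / c) * ε' * (M : ℝ) ^ (1 / c) + 2 * (1 / c * (M : ℝ) ^ (1 / c - 1)) * C := by
      rw [hsplit]
      ring
    linarith
  have hMN : (M : ℝ) ^ (1 / c) ≤ 2 ^ (1 / c) * N := by
    have hN1' : (1 : ℝ) ≤ (N : ℝ) ^ c := Real.one_le_rpow (by exact_mod_cast hN2) hc.le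
    have h1 : (M : ℝ) ≤ 2 * (N : ℝ) ^ c := by
      have h2 := Nat.floor_le (show 0 ≤ (N : ℝ) ^ c by positivity)
      rw [hM]
      push_cast
      linarith
    have h2 := Real.rpow_le_rpow hMpos.le h1 (show 0 ≤ 1 / c by positivity)
    rwa [Real.mul_rpow (by norm_num) (by positivity), ← Real.rpow_mul (Nat.cast_nonneg N),
      mul_one_div, div_self hc.ne', Real.rpow_one] at h2
  calc p (∑ n ∈ Icc 1 N, (u ⌊(n : ℝ) ^ c⌋₊ - F) * W n) ≤
      2 * (1 / c) * ε' * (M : ℝ) ^ (1 / c) + ε' * (M : ℝ) ^ (1 / c) := hb2.trans (by linarith)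
    _ = (2 * (1 / c) + 1) * ε' * (M : ℝ) ^ (1 / c) := by ring
    _ ≤ (2 * (1 / c) + 1) * ε' * (2 ^ (1 / c) * N) :=
        mul_le_mul_of_nonneg_left hMN (by positivity)
    _ = ε * N := by
        rw [hε']
        have h1 : (2 * (1 / c) + 1) ≠ 0 := by positivity
        have h2 : (2 : ℝ) ^ (1 / c) ≠ 0 := by positivity
        field_simp

end abstr

end Pool.Agent.N426.FP
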