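import Mathlib

/-!
# Averages along fractional powers with exponents less than one: combinatorics

By helper426.
-/

set_option autoImplicit false
set_option linter.unusedSectionVars false

namespace Pool.Agent.N426.FP

open Finset Filter

section abstr

variable {R : Type} [CommRing R] [Algebra ℝ R]

/-- a seminorm together with bounded elements -/
structure Fr (p : Seminorm ℝ R) (Bd : ℝ → R → Prop) : Prop where
  mul_le : ∀ (B : ℝ) (W f : R), Bd B W → p (W * f) ≤ B * p f
  mul : ∀ (B B' : ℝ) (f g : R), Bd B f → Bd B' g → Bd (B * B') (f * g)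
  le : ∀ (B : ℝ) (f : R), Bd B f → p f ≤ B
  one : Bd 1 1

variable {p : Seminorm ℝ R} {Bd : ℝ → R → Prop}

lemma Fr.nonneg (_h : Fr p Bd) {B : ℝ} {f : R} (hf : Bd B f) : 0 ≤ B :=
  (apply_nonneg p f).trans (_h.le B f hf)

lemma p_sum_le {ι : Type} (s : Finset ι) (f : ι → R) : p (∑ i ∈ s, f i) ≤ ∑ i ∈ s, p (f i) := by
  classical
  induction s using Finset.induction_on with
  | empty => simp
  | insert a s ha ih =>
    rw [Finset.sum_insert ha, Finset.sum_insert ha]
    exact (map_add_le_add p _ _).trans (add_le_add le_rfl ih)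

/-- unweighted sums against a slowly varying weight -/
lemma lemA (h : Fr p Bd) {u w : ℕ → R} {F : R} {B D : ℝ} (hu : ∀ m, p (u m - F) ≤ B)
    (hw : ∀ m, Bd D (w m))
    (hunif : ∀ ε > 0, ∃ H : ℕ, 1 ≤ H ∧ ∀ M, p (∑ i ∈ range H, (u (M + i) - F)) ≤ ε * H)
    (β : ℕ → ℕ) (hβ : Monotone β) (hwβ : ∀ m m', m ≤ m' → β m = β m' → w m = w m')
    (hβo : ∀ η > 0, ∃ C : ℝ, ∀ m : ℕ, (β m : ℝ) ≤ η * m + C) :
    ∀ ε > 0, ∃ C : ℝ, 0 ≤ C ∧ ∀ m : ℕ, p (∑ l ∈ range m, (u l - F) * w l) ≤ ε * m + C := by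
  intro ε hε
  have hD : 0 ≤ D := h.nonneg (hw 0)
  have hB : 0 ≤ B := (apply_nonneg p _).trans (hu 0)
  obtain ⟨H, hH1, hH⟩ := hunif (ε / (2 * (D + 1))) (by positivity)
  have hHpos : (0 : ℝ) < H := by exact_mod_cast hH1
  obtain ⟨C, hC⟩ := hβo (ε / (2 * (H * (D * B) + 1))) (by positivity)
  have hC0 : 0 ≤ C := by
    have h1 := hC 0
    have h2 : (0 : ℝ) ≤ β 0 := Nat.cast_nonneg _
    simp only [Nat.cast_zero, mul_zero, zero_add] at h1
    linarith
  have hterm : ∀ l m, p ((u l - F) * w m) ≤ D * B := by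
    intro l m
    rw [mul_comm]
    exact (h.mul_le D _ _ (hw m)).trans (mul_le_mul_of_nonneg_left (hu l) hD)
  -- one window
  have hwin : ∀ q : ℕ, p (∑ i ∈ range H, (u (q * H + i) - F) * w (q * H + i)) ≤
      ε / 2 * H + H * (D * B) * ((β ((q + 1) * H) : ℝ) - β (q * H)) := by
    intro q
    by_cases hb : β (q * H) = β ((q + 1) * H)
    · have hconst : ∀ i ∈ range H, (u (q * H + i) - F) * w (q * H + i) =
          w (q * H) * (u (q * H + i) - F) := by
        intro i hi
        have hi' := Finset.mem_range.1 hi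
        have e : w (q * H) = w (q * H + i) := by
          refine hwβ _ _ (by omega) ?_
          have h1 := hβ (show q * H ≤ q * H + i by omega)
          have h2 := hβ (show q * H + i ≤ (q + 1) * H by rw [add_mul, one_mul]; omega)
          omega
        rw [← e, mul_comm]
      rw [Finset.sum_congr rfl hconst, ← Finset.mul_sum]
      have h1 := (h.mul_le D _ _ (hw (q * H))).trans
        (mul_le_mul_of_nonneg_left (hH (q * H)) hD)
      have h2 : D * (ε / (2 * (D + 1)) * H) ≤ ε / 2 * H := by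
        have h3 : D * (ε / (2 * (D + 1))) ≤ ε / 2 := by
          rw [mul_div_assoc', div_le_div_iff₀ (by positivity) (by positivity)]
          nlinarith
        calc D * (ε / (2 * (D + 1)) * H) = D * (ε / (2 * (D + 1))) * H := by ring
          _ ≤ ε / 2 * H := mul_le_mul_of_nonneg_right h3 hHpos.le
      rw [hb, sub_self, mul_zero, add_zero]
      exact h1.trans h2
    · have h1 : p (∑ i ∈ range H, (u (q * H + i) - F) * w (q * H + i)) ≤ H * (D * B) := by
        refine (p_sum_le _ _).trans ?_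
        refine (Finset.sum_le_sum fun i _ => hterm (q * H + i) (q * H + i)).trans ?_
        rw [Finset.sum_const, Finset.card_range, nsmul_eq_mul]
      have h2 : (1 : ℝ) ≤ (β ((q + 1) * H) : ℝ) - β (q * H) := by
        have h3 := hβ (show q * H ≤ (q + 1) * H by rw [add_mul]; omega)
        have h4 : β (q * H) + 1 ≤ β ((q + 1) * H) := by omega
        have h5 : ((β (q * H) + 1 : ℕ) : ℝ) ≤ β ((q + 1) * H) := by exact_mod_cast h4
        push_cast at h5
        linarith
      have h6 : H * (D * B) * 1 ≤ H * (D * B) * ((β ((q + 1) * H) : ℝ) - β (q * H)) :=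
        mul_le_mul_of_nonneg_left h2 (by positivity)
      have h7 : 0 ≤ ε / 2 * H := by positivity
      linarith
  -- all windows
  have hall : ∀ Q : ℕ, p (∑ l ∈ range (Q * H), (u l - F) * w l) ≤
      ε / 2 * (Q * H : ℕ) + H * (D * B) * β (Q * H) := by
    intro Q
    induction Q with
    | zero =>
      simp only [zero_mul, Finset.range_zero, Finset.sum_empty, map_zero]
      positivity
    | succ Q ih =>
      have e : (Q + 1) * H = Q * H + H := by ring
      rw [e, Finset.sum_range_add, ← e]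
      refine (map_add_le_add p _ _).trans ?_
      have h1 := hwin Q
      have h2 : (((Q + 1) * H : ℕ) : ℝ) = ((Q * H : ℕ) : ℝ) + H := by
        rw [e]; push_cast; ring
      rw [h2]
      linarith
  refine ⟨H * (D * B) * C + H * (D * B), by positivity, fun m => ?_⟩
  obtain ⟨Q, r, hr, hm⟩ : ∃ Q r, r < H ∧ m = Q * H + r :=
    ⟨m / H, m % H, Nat.mod_lt _ hH1, by rw [mul_comm]; exact (Nat.div_add_mod m H).symm⟩
  have h1 := hall Q
  have h2 : p (∑ l ∈ range m, (u l - F) * w l) ≤
      p (∑ l ∈ range (Q * H), (u l - F) * w l) + H * (D * B) := by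
    rw [hm, Finset.sum_range_add]
    refine (map_add_le_add p _ _).trans (add_le_add le_rfl ?_)
    refine (p_sum_le _ _).trans ?_
    refine (Finset.sum_le_sum fun i _ => hterm (Q * H + i) (Q * H + i)).trans ?_
    rw [Finset.sum_const, Finset.card_range, nsmul_eq_mul]
    exact mul_le_mul_of_nonneg_right (by exact_mod_cast hr.le) (by positivity)
  have h3 : (β (Q * H) : ℝ) ≤ β m := by exact_mod_cast hβ (show Q * H ≤ m by omega)
  have h4 := hC m
  have h5 : ((Q * H : ℕ) : ℝ) ≤ m := by exact_mod_cast (show Q * H ≤ m by omega)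
  have h6 : H * (D * B) * (β (Q * H) : ℝ) ≤
      H * (D * B) * (ε / (2 * (H * (D * B) + 1)) * m + C) :=
    mul_le_mul_of_nonneg_left (h3.trans h4) (by positivity)
  have h7 : H * (D * B) * (ε / (2 * (H * (D * B) + 1)) * m) ≤ ε / 2 * m := by
    have h8 : H * (D * B) * (ε / (2 * (H * (D * B) + 1))) ≤ ε / 2 := by
      rw [mul_div_assoc', div_le_div_iff₀ (by positivity) (by positivity)]
      nlinarith
    calc H * (D * B) * (ε / (2 * (H * (D * B) + 1)) * m) =
        H * (D * B) * (ε / (2 * (H * (D * B) + 1))) * m := by ring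
      _ ≤ ε / 2 * m := mul_le_mul_of_nonneg_right h8 (Nat.cast_nonneg m)
  have h9 : ε / 2 * ((Q * H : ℕ) : ℝ) ≤ ε / 2 * m := mul_le_mul_of_nonneg_left h5 (by positivity)
  have h10 : H * (D * B) * (ε / (2 * (H * (D * B) + 1)) * m + C) =
      H * (D * B) * (ε / (2 * (H * (D * B) + 1)) * m) + H * (D * B) * C := by ring
  linarith

/-- summation by parts -/
lemma lemAbel (g : ℕ → ℝ) (hg : Monotone g) (hg0 : 0 ≤ g 0) (x : ℕ → R) (K : ℝ) (M : ℕ)
    (hM : 1 ≤ M) (hx : ∀ m ≤ M, p (∑ l ∈ range m, x l) ≤ K) :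
    p (∑ m ∈ range M, g m • x m) ≤ 2 * g (M - 1) * K := by
  have hK : 0 ≤ K := (apply_nonneg p _).trans (hx 0 (Nat.zero_le _))
  have hgn : ∀ n, 0 ≤ g n := fun n => hg0.trans (hg (Nat.zero_le n))
  rw [Finset.sum_range_by_parts]
  refine (map_sub_le_add p _ _).trans ?_
  have h1 : p (g (M - 1) • ∑ i ∈ range M, x i) ≤ g (M - 1) * K := by
    rw [map_smul_eq_mul, Real.norm_of_nonneg (hgn _)]
    exact mul_le_mul_of_nonneg_left (hx M le_rfl) (hgn _)
  have h2 : p (∑ i ∈ range (M - 1), (g (i + 1) - g i) • ∑ i ∈ range (i + 1), x i) ≤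
      g (M - 1) * K := by
    refine (p_sum_le _ _).trans ?_
    have h3 : ∀ i ∈ range (M - 1), p ((g (i + 1) - g i) • ∑ i ∈ range (i + 1), x i) ≤
        (g (i + 1) - g i) * K := by
      intro i hi
      have hi' := Finset.mem_range.1 hi
      have h4 : 0 ≤ g (i + 1) - g i := sub_nonneg.2 (hg (Nat.le_succ i))
      rw [map_smul_eq_mul, Real.norm_of_nonneg h4]
      exact mul_le_mul_of_nonneg_left (hx (i + 1) (by omega)) h4
    refine (Finset.sum_le_sum h3).trans ?_
    rw [← Finset.sum_mul, Finset.sum_range_sub]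
    refine mul_le_mul_of_nonneg_right ?_ hK
    linarith
  linarith

end abstr

end Pool.Agent.N426.FP
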