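import Pool.Agent.N426.FP.Hilb

/-!
# Uniform convergence of the averages along squares

By helper426.
-/

set_option autoImplicit false
set_option linter.unusedSectionVars false

namespace Pool.Agent.N426.FP

open Finset Filter Topology

variable {H : Type} [NormedAddCommGroup H] [InnerProductSpace ℝ H] (V : H →ₗᵢ[ℝ] H)

lemma fix_mul (q m : ℕ) (v : H) (h : (V ^ q) v = v) : (V ^ (q * m)) v = v := by
  induction m with
  | zero => simp
  | succ m ih => rw [Nat.mul_succ, pow_add_apply', h, ih]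

/-- the averages of a vector along the squares -/
def sqs (V : H →ₗᵢ[ℝ] H) (f : H) (K M : ℕ) : H := ∑ i ∈ range K, (V ^ ((M + i) ^ 2)) f

lemma sqs_add (f g : H) (K M : ℕ) : sqs V (f + g) K M = sqs V f K M + sqs V g K M := by
  simp only [sqs, map_add, Finset.sum_add_distrib]

lemma sqs_norm_le (f : H) (K M : ℕ) : ‖sqs V f K M‖ ≤ K * ‖f‖ := by
  refine (norm_sum_le _ _).trans ?_
  have : ∀ i ∈ range K, ‖(V ^ ((M + i) ^ 2)) f‖ ≤ ‖f‖ := fun i _ => by
    rw [LinearIsometry.norm_map]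
  refine (Finset.sum_le_sum this).trans ?_
  rw [Finset.sum_const, Finset.card_range, nsmul_eq_mul]

/-- an approximate limit exists at every scale -/
def UCC (V : H →ₗᵢ[ℝ] H) (f : H) : Prop :=
  ∀ ε > 0, ∃ F : H, ∃ K0 : ℕ, ∀ K ≥ K0, ∀ M : ℕ, ‖sqs V f K M - (K : ℝ) • F‖ ≤ ε * K

lemma ucc_add (f g : H) (hf : UCC V f) (hg : UCC V g) : UCC V (f + g) := by
  intro ε hε
  obtain ⟨F, K1, h1⟩ := hf (ε / 2) (by positivity)
  obtain ⟨G, K2, h2⟩ := hg (ε / 2) (by positivity)
  refine ⟨F + G, max K1 K2, fun K hK M => ?_⟩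
  have e : sqs V (f + g) K M - (K : ℝ) • (F + G) =
      (sqs V f K M - (K : ℝ) • F) + (sqs V g K M - (K : ℝ) • G) := by
    rw [sqs_add, smul_add]; abel
  rw [e]
  refine (norm_add_le _ _).trans ?_
  have := h1 K ((le_max_left _ _).trans hK) M
  have := h2 K ((le_max_right _ _).trans hK) M
  linarith

lemma ucc_closure (f : H) (h : ∀ ε > 0, ∃ g, ‖f - g‖ ≤ ε ∧ UCC V g) : UCC V f := by
  intro ε hε
  obtain ⟨g, hg, hu⟩ := h (ε / 2) (by positivity)
  obtain ⟨F, K0, h1⟩ := hu (ε / 2) (by positivity)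
  refine ⟨F, K0, fun K hK M => ?_⟩
  have e : sqs V f K M - (K : ℝ) • F = sqs V (f - g) K M + (sqs V g K M - (K : ℝ) • F) := by
    have : sqs V f K M = sqs V (f - g) K M + sqs V g K M := by
      rw [← sqs_add, sub_add_cancel]
    rw [this]; abel
  rw [e]
  refine (norm_add_le _ _).trans ?_
  have h2 := sqs_norm_le V (f - g) K M
  have h3 := h1 K hK M
  have h4 : (K : ℝ) * ‖f - g‖ ≤ K * (ε / 2) := mul_le_mul_of_nonneg_left hg (Nat.cast_nonneg K)
  linarith

/-- the averages of a periodic vector -/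
lemma ucc_periodic (q : ℕ) (hq : 1 ≤ q) (v : H) (hv : (V ^ q) v = v) : UCC V v := by
  intro ε hε
  set x : ℕ → H := fun n => (V ^ (n ^ 2)) v with hx
  have hper : ∀ n, x (n + q) = x n := by
    intro n
    rw [hx]
    simp only
    rw [show (n + q) ^ 2 = n ^ 2 + q * (2 * n + q) by ring, pow_add_apply', fix_mul V q _ v hv]
  set c : H := ∑ a ∈ range q, x a with hc
  have hblock : ∀ M, ∑ i ∈ range q, x (M + i) = c := by
    intro M
    induction M with
    | zero => simp [hc]
    | succ M ih =>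
      have h1 : ∑ i ∈ range q, x (M + 1 + i) - ∑ i ∈ range q, x (M + i) = x (M + q) - x M := by
        have h2 := Finset.sum_range_sub (fun n => x (M + n)) q
        simp only [add_zero] at h2
        rw [← h2, ← Finset.sum_sub_distrib]
        refine Finset.sum_congr rfl fun n _ => ?_
        rw [show M + 1 + n = M + (n + 1) by ring]
      rw [hper, sub_self, sub_eq_zero] at h1
      rw [h1, ih]
  have hblocks : ∀ m M, ∑ i ∈ range (q * m), x (M + i) = (m : ℝ) • c := by
    intro m M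
    induction m with
    | zero => simp
    | succ m ih =>
      rw [Nat.mul_succ, Finset.sum_range_add, ih]
      have h2 := hblock (M + q * m)
      have h3 : ∑ i ∈ range q, x (M + (q * m + i)) = c := by
        rw [← h2]
        exact Finset.sum_congr rfl fun i _ => by rw [add_assoc]
      rw [h3]
      push_cast
      rw [add_smul, one_smul]
  have hxn : ∀ n, ‖x n‖ ≤ ‖v‖ := fun n => by rw [hx]; simp only [LinearIsometry.norm_map]; exact le_rfl
  have hcn : ‖c‖ ≤ q * ‖v‖ := by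
    refine (norm_sum_le _ _).trans ?_
    refine (Finset.sum_le_sum fun a _ => hxn a).trans ?_
    rw [Finset.sum_const, Finset.card_range, nsmul_eq_mul]
  have hq0 : (0 : ℝ) < q := by exact_mod_cast hq
  obtain ⟨K0, hK0⟩ := exists_nat_gt (2 * q * ‖v‖ / ε)
  refine ⟨(q : ℝ)⁻¹ • c, K0, fun K hK M => ?_⟩
  have hKe : 2 * q * ‖v‖ ≤ ε * K := by
    have h1 : (K0 : ℝ) ≤ K := by exact_mod_cast hK
    rw [div_lt_iff₀ hε] at hK0
    nlinarith
  refine le_trans ?_ hKe
  set m := K / q with hm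
  set s := K % q with hs
  have hK2 : K = q * m + s := (Nat.div_add_mod K q).symm
  have hsq : s < q := Nat.mod_lt _ (by omega)
  have e : sqs V v K M - (K : ℝ) • (q : ℝ)⁻¹ • c =
      ∑ i ∈ range s, x (M + (q * m + i)) - ((s : ℝ) / q) • c := by
    have h1 : sqs V v K M = ∑ i ∈ range K, x (M + i) := rfl
    rw [h1]
    have h2 : ∑ i ∈ range K, x (M + i) = (m : ℝ) • c + ∑ i ∈ range s, x (M + (q * m + i)) := by
      rw [hK2, Finset.sum_range_add, hblocks]
    rw [h2, smul_smul]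
    have h3 : (K : ℝ) * (q : ℝ)⁻¹ = m + s / q := by
      have : (K : ℝ) = q * m + s := by exact_mod_cast hK2
      rw [this]; field_simp
    rw [h3, add_smul]
    abel
  rw [e]
  refine (norm_sub_le _ _).trans ?_
  have h1 : ‖∑ i ∈ range s, x (M + (q * m + i))‖ ≤ s * ‖v‖ := by
    refine (norm_sum_le _ _).trans ?_
    refine (Finset.sum_le_sum fun a _ => hxn _).trans ?_
    rw [Finset.sum_const, Finset.card_range, nsmul_eq_mul]
  have h2 : ‖((s : ℝ) / q) • c‖ ≤ s * ‖v‖ := by
    rw [norm_smul, Real.norm_of_nonneg (by positivity)]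
    calc (s : ℝ) / q * ‖c‖ ≤ s / q * (q * ‖v‖) := mul_le_mul_of_nonneg_left hcn (by positivity)
      _ = s * ‖v‖ := by field_simp
  have h3 : (s : ℝ) * ‖v‖ ≤ q * ‖v‖ :=
    mul_le_mul_of_nonneg_right (by exact_mod_cast hsq.le) (norm_nonneg _)
  linarith

/-- the periodic vectors -/
def perSub (V : H →ₗᵢ[ℝ] H) : Submodule ℝ H where
  carrier := {v | ∃ q : ℕ, 1 ≤ q ∧ (V ^ q) v = v}
  zero_mem' := ⟨1, le_rfl, map_zero _⟩
  add_mem' := by
    rintro a b ⟨q, hq, ha⟩ ⟨q', hq', hb⟩
    refine ⟨q * q', Nat.mul_pos hq hq', ?_⟩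
    rw [map_add, fix_mul V q q' a ha, mul_comm q q', fix_mul V q' q b hb]
  smul_mem' := by
    rintro c a ⟨q, hq, ha⟩
    refine ⟨q, hq, ?_⟩
    rw [map_smul, ha]

/-- every vector has uniform averages along the squares -/
theorem ucc_all [CompleteSpace H] (f : H) : UCC V f := by
  obtain ⟨g, hg, r, hr, e⟩ := ((perSub V).topologicalClosure).exists_add_mem_mem_orthogonal f
  rw [e]
  refine ucc_add V g r ?_ ?_
  · refine ucc_closure V g fun ε hε => ?_
    have h1 : g ∈ closure ((perSub V : Submodule ℝ H) : Set H) := hg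
    obtain ⟨y, hy, hd⟩ := Metric.mem_closure_iff.1 h1 ε hε
    obtain ⟨q, hq, hv⟩ := hy
    refine ⟨y, ?_, ucc_periodic V q hq y hv⟩
    rw [← dist_eq_norm]
    exact hd.le
  · have h2 := U1 V r (hrOf V r fun q hq v hv => by
      have h3 : v ∈ (perSub V).topologicalClosure :=
        (perSub V).le_topologicalClosure ⟨q, hq, hv⟩
      exact (Submodule.mem_orthogonal _ _).1 hr v h3)
    intro ε hε
    obtain ⟨K0, hK0⟩ := h2 ε hε
    refine ⟨0, K0, fun K hK M => ?_⟩
    rw [smul_zero, sub_zero]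
    exact hK0 K hK M

/-- uniform convergence of the averages along the squares -/
theorem unif_all [CompleteSpace H] (f : H) : ∃ F : H, ∀ ε > 0, ∃ K0 : ℕ, ∀ K ≥ K0, ∀ M : ℕ,
    ‖sqs V f K M - (K : ℝ) • F‖ ≤ ε * K := by
  have hu := ucc_all V f
  have hpos : ∀ n : ℕ, (0 : ℝ) < 1 / ((n : ℝ) + 1) := fun n => by positivity
  choose F K0 hF using fun n : ℕ => hu (1 / ((n : ℝ) + 1)) (hpos n)
  have hdist : ∀ n m, ‖F n - F m‖ ≤ 1 / ((n : ℝ) + 1) + 1 / ((m : ℝ) + 1) := by
    intro n m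
    set K := max 1 (max (K0 n) (K0 m)) with hK
    have hK1 : (0 : ℝ) < K := by
      have : 1 ≤ K := le_max_left _ _
      exact_mod_cast this
    have h1 := hF n K ((le_max_left _ _).trans (le_max_right _ _)) 0
    have h2 := hF m K ((le_max_right _ _).trans (le_max_right _ _)) 0
    have h3 : ‖(K : ℝ) • (F n - F m)‖ ≤ (1 / ((n : ℝ) + 1) + 1 / ((m : ℝ) + 1)) * K := by
      have e : (K : ℝ) • (F n - F m) = (sqs V f K 0 - (K : ℝ) • F m) -
          (sqs V f K 0 - (K : ℝ) • F n) := by rw [smul_sub]; abel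
      rw [e]
      refine (norm_sub_le _ _).trans ?_
      linarith
    rw [norm_smul, Real.norm_of_nonneg hK1.le, mul_comm] at h3
    exact le_of_mul_le_mul_right h3 hK1
  have hcau : CauchySeq F := by
    refine cauchySeq_of_le_tendsto_0 (fun n : ℕ => 2 * (1 / ((n : ℝ) + 1))) ?_ ?_
    · intro n m N hn hm
      rw [dist_eq_norm]
      refine (hdist n m).trans ?_
      have h1 : 1 / ((n : ℝ) + 1) ≤ 1 / ((N : ℝ) + 1) :=
        one_div_le_one_div_of_le (by positivity) (by
          have : (N : ℝ) ≤ n := by exact_mod_cast hn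
          linarith)
      have h2 : 1 / ((m : ℝ) + 1) ≤ 1 / ((N : ℝ) + 1) :=
        one_div_le_one_div_of_le (by positivity) (by
          have : (N : ℝ) ≤ m := by exact_mod_cast hm
          linarith)
      linarith
    · have := (tendsto_one_div_add_atTop_nhds_zero_nat (𝕜 := ℝ)).const_mul 2
      rwa [mul_zero] at this
  obtain ⟨G, hG⟩ := cauchySeq_tendsto_of_complete hcau
  refine ⟨G, fun ε hε => ?_⟩
  have h1 : ∀ᶠ n in atTop, ‖F n - G‖ ≤ ε / 2 := by
    have h2 : Tendsto (fun n => ‖F n - G‖) atTop (𝓝 0) := by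
      have := (hG.sub_const G).norm
      rwa [sub_self, norm_zero] at this
    exact h2.eventually_le_const (by positivity)
  have h2 : ∀ᶠ n : ℕ in atTop, 1 / ((n : ℝ) + 1) ≤ ε / 2 :=
    (tendsto_one_div_add_atTop_nhds_zero_nat (𝕜 := ℝ)).eventually_le_const (by positivity)
  obtain ⟨n, hn1, hn2⟩ := (h1.and h2).exists
  refine ⟨K0 n, fun K hK M => ?_⟩
  have e : sqs V f K M - (K : ℝ) • G = (sqs V f K M - (K : ℝ) • F n) + (K : ℝ) • (F n - G) := by
    rw [smul_sub]; abel
  rw [e]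
  refine (norm_add_le _ _).trans ?_
  rw [norm_smul, Real.norm_of_nonneg (Nat.cast_nonneg K)]
  have h3 := hF n K hK M
  have hK0' : (0 : ℝ) ≤ K := Nat.cast_nonneg K
  have h4 : 1 / ((n : ℝ) + 1) * K ≤ ε / 2 * K := mul_le_mul_of_nonneg_right hn2 hK0'
  have h5 : (K : ℝ) * ‖F n - G‖ ≤ K * (ε / 2) := mul_le_mul_of_nonneg_left hn1 hK0'
  linarith

end Pool.Agent.N426.FP
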