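import Pool.Agent.N426.FP.Prod
import Pool.Agent.N426.FP.Hilb2

/-!
# Bounded measurable functions on a probability space

By helper426.
-/

set_option autoImplicit false
set_option linter.unusedSectionVars false

namespace Pool.Agent.N426.FP

open Finset Filter Topology MeasureTheory

variable {X : Type} [MeasurableSpace X]

/-- the algebra of bounded measurable functions -/
def BM (X : Type) [MeasurableSpace X] : Subalgebra ℝ (X → ℝ) where
  carrier := {f | Measurable f ∧ ∃ C : ℝ, ∀ x, |f x| ≤ C}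
  mul_mem' := by
    rintro f g ⟨hf, C, hC⟩ ⟨hg, D, hD⟩
    refine ⟨hf.mul hg, C * D, fun x => ?_⟩
    rw [Pi.mul_apply, abs_mul]
    exact mul_le_mul (hC x) (hD x) (abs_nonneg _) ((abs_nonneg _).trans (hC x))
  add_mem' := by
    rintro f g ⟨hf, C, hC⟩ ⟨hg, D, hD⟩
    refine ⟨hf.add hg, C + D, fun x => ?_⟩
    rw [Pi.add_apply]
    exact (abs_add_le _ _).trans (add_le_add (hC x) (hD x))
  algebraMap_mem' := by
    intro r
    exact ⟨measurable_const, |r|, fun x => le_rfl⟩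

variable (μ : Measure X) [IsProbabilityMeasure μ]

lemma bm_memLp (f : BM X) : MemLp (f : X → ℝ) 2 μ := by
  obtain ⟨f, hf, C, hC⟩ := f
  exact MemLp.of_bound hf.aestronglyMeasurable C (Eventually.of_forall fun x => hC x)

/-- bounded measurable functions as vectors of the Hilbert space -/
noncomputable def toL : BM X →ₗ[ℝ] Lp ℝ 2 μ where
  toFun f := (bm_memLp μ f).toLp (f : X → ℝ)
  map_add' _ _ := rfl
  map_smul' _ _ := rfl

lemma toL_coe (f : BM X) : (toL μ f : X → ℝ) =ᵐ[μ] (f : X → ℝ) := MemLp.coeFn_toLp (bm_memLp μ f)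

/-- the seminorm of the Hilbert space -/
noncomputable def sn : Seminorm ℝ (BM X) := (normSeminorm ℝ (Lp ℝ 2 μ)).comp (toL μ)

lemma sn_apply (f : BM X) : sn μ f = ‖toL μ f‖ := rfl

/-- pointwise bound -/
def Bd (B : ℝ) (f : BM X) : Prop := ∀ x, |(f : X → ℝ) x| ≤ B

lemma fr : Fr (sn μ) (Bd (X := X)) where
  mul_le B W f hW := by
    rw [sn_apply, sn_apply]
    refine Lp.norm_le_mul_norm_of_ae_le_mul ?_
    filter_upwards [toL_coe μ (W * f), toL_coe μ f] with x h1 h2
    rw [h1, h2]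
    have e : ((W * f : BM X) : X → ℝ) x = (W : X → ℝ) x * (f : X → ℝ) x := rfl
    rw [e, norm_mul]
    exact mul_le_mul_of_nonneg_right (hW x) (norm_nonneg _)
  mul B B' f g hf hg x := by
    have e : ((f * g : BM X) : X → ℝ) x = (f : X → ℝ) x * (g : X → ℝ) x := rfl
    rw [e, abs_mul]
    exact mul_le_mul (hf x) (hg x) (abs_nonneg _) ((abs_nonneg _).trans (hf x))
  le B f hf := by
    have hB : 0 ≤ B := by
      obtain ⟨x⟩ : Nonempty X := nonempty_of_isProbabilityMeasure μ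
      exact (abs_nonneg _).trans (hf x)
    rw [sn_apply]
    have h := Lp.norm_le_of_ae_bound (f := toL μ f) (C := B) hB (by
      filter_upwards [toL_coe μ f] with x h1
      rw [h1]
      exact hf x)
    simpa [measureUnivNNReal] using h
  one x := by
    have e : ((1 : BM X) : X → ℝ) x = 1 := rfl
    rw [e, abs_one]

/-- the composition with an iterate -/
def cmp (T : X → X) (hT : Measurable T) (m : ℕ) (f : BM X) : BM X :=
  ⟨fun x => (f : X → ℝ) (T^[m] x), f.2.1.comp (hT.iterate m), by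
    obtain ⟨C, hC⟩ := f.2.2
    exact ⟨C, fun x => hC _⟩⟩

/-- the Koopman operator -/
noncomputable def kp (T : X → X) (hT : MeasurePreserving T μ μ) : Lp ℝ 2 μ →ₗᵢ[ℝ] Lp ℝ 2 μ :=
  Lp.compMeasurePreservingₗᵢ ℝ T hT

lemma kp_pow (T : X → X) (hT : MeasurePreserving T μ μ) (m : ℕ) (f : BM X) :
    (kp μ T hT ^ m) (toL μ f) = toL μ (cmp T hT.measurable m f) := by
  induction m with
  | zero => rfl
  | succ m ih =>
    have e : (kp μ T hT ^ (m + 1)) (toL μ f) = kp μ T hT ((kp μ T hT ^ m) (toL μ f)) := by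
      rw [pow_succ']; rfl
    rw [e, ih]
    have e2 : cmp T hT.measurable (m + 1) f = cmp T hT.measurable 1 (cmp T hT.measurable m f) := by
      apply Subtype.ext
      funext x
      change (f : X → ℝ) (T^[m + 1] x) = (f : X → ℝ) (T^[m] (T x))
      rw [Function.iterate_succ_apply]
    rw [e2]
    rfl

lemma sqs_toL (T : X → X) (hT : MeasurePreserving T μ μ) (f : BM X) (K M : ℕ) :
    sqs (kp μ T hT) (toL μ f) K M =
      toL μ (∑ i ∈ range K, cmp T hT.measurable ((M + i) ^ 2) f) := by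
  rw [sqs, map_sum]
  exact Finset.sum_congr rfl fun i _ => kp_pow μ T hT _ f

/-- truncation -/
noncomputable def tr (B y : ℝ) : ℝ := max (-B) (min B y)

lemma tr_abs_le {B : ℝ} (hB : 0 ≤ B) (y : ℝ) : |tr B y| ≤ B := by
  rw [tr, abs_le]
  exact ⟨le_max_left _ _, max_le (by linarith) (min_le_left _ _)⟩

lemma tr_eq {B y : ℝ} (h : |y| ≤ B) : tr B y = y := by
  rw [abs_le] at h
  rw [tr, min_eq_right h.2, max_eq_right h.1]

lemma tr_sub_le (B y z : ℝ) : |tr B y - tr B z| ≤ |y - z| := by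
  rw [tr, tr]
  refine (abs_max_sub_max_le_max (-B) (min B y) (-B) (min B z)).trans ?_
  refine max_le (by rw [sub_self, abs_zero]; exact abs_nonneg _) ?_
  refine (abs_min_sub_min_le_max B y B z).trans ?_
  exact max_le (by rw [sub_self, abs_zero]; exact abs_nonneg _) le_rfl

/-- the truncation of a vector of the Hilbert space -/
noncomputable def trL (B : ℝ) (hB : 0 ≤ B) (F : Lp ℝ 2 μ) : BM X :=
  ⟨fun x => tr B ((F : X → ℝ) x), by
    have h1 : Measurable (F : X → ℝ) := (Lp.stronglyMeasurable F).measurable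
    exact measurable_const.max (measurable_const.min h1), B, fun x => tr_abs_le hB _⟩

lemma trL_sub_le (B : ℝ) (hB : 0 ≤ B) (F : Lp ℝ 2 μ) (G : BM X) (hG : Bd B G) :
    ‖toL μ (trL μ B hB F) - toL μ G‖ ≤ ‖F - toL μ G‖ := by
  refine Lp.norm_le_norm_of_ae_le ?_
  filter_upwards [toL_coe μ (trL μ B hB F), toL_coe μ G,
    Lp.coeFn_sub (toL μ (trL μ B hB F)) (toL μ G), Lp.coeFn_sub F (toL μ G)] with x h1 h2 h3 h4
  rw [h3, h4, Pi.sub_apply, Pi.sub_apply, h1, h2]
  have e : ((trL μ B hB F : BM X) : X → ℝ) x = tr B ((F : X → ℝ) x) := rfl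
  rw [e, Real.norm_eq_abs, Real.norm_eq_abs]
  have h5 := tr_sub_le B ((F : X → ℝ) x) ((G : X → ℝ) x)
  rwa [tr_eq (hG x)] at h5

/-- a limit of bounded functions is bounded -/
lemma trL_eq (B : ℝ) (hB : 0 ≤ B) (F : Lp ℝ 2 μ)
    (h : ∀ ε > 0, ∃ G : BM X, Bd B G ∧ ‖F - toL μ G‖ ≤ ε) : toL μ (trL μ B hB F) = F := by
  rw [← sub_eq_zero, ← norm_le_zero_iff]
  refine le_of_forall_pos_le_add fun ε hε => ?_
  obtain ⟨G, hG, hd⟩ := h (ε / 2) (by positivity)
  have h1 := trL_sub_le μ B hB F G hG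
  have e : toL μ (trL μ B hB F) - F = (toL μ (trL μ B hB F) - toL μ G) - (F - toL μ G) := by abel
  rw [e]
  refine (norm_sub_le _ _).trans ?_
  linarith

/-- uniform averages along the squares -/
theorem conc_unif (T : X → X) (hT : MeasurePreserving T μ μ) (f : BM X) (B : ℝ) (hB : 0 ≤ B)
    (hf : Bd B f) : ∃ F : BM X, Bd B F ∧ ∀ ε > 0, ∃ K0 : ℕ, ∀ K ≥ K0, ∀ M : ℕ,
      sn μ (∑ i ∈ range K, (cmp T hT.measurable ((M + i) ^ 2) f - F)) ≤ ε * K := by
  obtain ⟨F, hF⟩ := unif_all (kp μ T hT) (toL μ f)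
  have hkey : toL μ (trL μ B hB F) = F := by
    refine trL_eq μ B hB F fun ε hε => ?_
    obtain ⟨K0, hK0⟩ := hF ε hε
    set K := max 1 K0 with hK
    have hK1 : (0 : ℝ) < K := by
      have : 1 ≤ K := le_max_left _ _
      exact_mod_cast this
    refine ⟨(K : ℝ)⁻¹ • ∑ i ∈ range K, cmp T hT.measurable ((0 + i) ^ 2) f, ?_, ?_⟩
    · intro x
      have e : (((K : ℝ)⁻¹ • ∑ i ∈ range K, cmp T hT.measurable ((0 + i) ^ 2) f : BM X) :
          X → ℝ) x = (K : ℝ)⁻¹ * ∑ i ∈ range K, (f : X → ℝ) (T^[(0 + i) ^ 2] x) := by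
        have e1 : ((∑ i ∈ range K, cmp T hT.measurable ((0 + i) ^ 2) f : BM X) : X → ℝ) =
            ∑ i ∈ range K, ((cmp T hT.measurable ((0 + i) ^ 2) f : BM X) : X → ℝ) := by
          simp
        have e2 : (((K : ℝ)⁻¹ • ∑ i ∈ range K, cmp T hT.measurable ((0 + i) ^ 2) f : BM X) :
          X → ℝ) x = (K : ℝ)⁻¹ *
            ((∑ i ∈ range K, cmp T hT.measurable ((0 + i) ^ 2) f : BM X) : X → ℝ) x := rfl
        rw [e2, e1, Finset.sum_apply]
        rfl
      rw [e, abs_mul, abs_of_nonneg (inv_nonneg.2 hK1.le), inv_mul_le_iff₀ hK1]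
      refine (Finset.abs_sum_le_sum_abs _ _).trans ?_
      refine (Finset.sum_le_sum fun i _ => hf _).trans ?_
      rw [Finset.sum_const, Finset.card_range, nsmul_eq_mul]
    · have h1 := hK0 K (le_max_right _ _) 0
      rw [sqs_toL] at h1
      rw [map_smul]
      set S := toL μ (∑ i ∈ range K, cmp T hT.measurable ((0 + i) ^ 2) f) with hS
      have e : F - (K : ℝ)⁻¹ • S = -((K : ℝ)⁻¹ • (S - (K : ℝ) • F)) := by
        rw [smul_sub, smul_smul, inv_mul_cancel₀ hK1.ne', one_smul]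
        abel
      rw [e, norm_neg, norm_smul, norm_inv, Real.norm_natCast, inv_mul_le_iff₀ hK1]
      linarith
  refine ⟨trL μ B hB F, fun x => tr_abs_le hB _, fun ε hε => ?_⟩
  obtain ⟨K0, hK0⟩ := hF ε hε
  refine ⟨K0, fun K hK M => ?_⟩
  have h1 := hK0 K hK M
  rw [sn_apply, Finset.sum_sub_distrib, map_sub, ← sqs_toL, Finset.sum_const, Finset.card_range,
    map_nsmul, hkey, ← Nat.cast_smul_eq_nsmul ℝ]
  exact h1

end Pool.Agent.N426.FP
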