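import Mathlib

/-!
# Averages along squares, uniformly in the starting point

By helper426.
-/

set_option autoImplicit false
set_option linter.unusedSectionVars false

namespace Pool.Agent.N426.FP

open Finset Filter Topology

variable {H : Type} [NormedAddCommGroup H] [InnerProductSpace ℝ H] (V : H →ₗᵢ[ℝ] H)

lemma pow_add_apply' (a b : ℕ) (x : H) : (V ^ (a + b)) x = (V ^ a) ((V ^ b) x) := by
  rw [pow_add]; rfl

lemma pow_mul_apply' (a b : ℕ) (x : H) : (V ^ (a * b)) x = ((V ^ a) ^ b) x := by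
  rw [pow_mul]

lemma sum_shift_le (u : ℕ → H) (B : ℝ) (hu : ∀ n, ‖u n‖ ≤ B) (N l : ℕ) :
    ‖∑ n ∈ range N, u (n + l) - ∑ n ∈ range N, u n‖ ≤ 2 * l * B := by
  induction l with
  | zero => simp
  | succ l ih =>
    have h1 : ∑ n ∈ range N, u (n + (l + 1)) - ∑ n ∈ range N, u (n + l) = u (N + l) - u l := by
      have h2 := Finset.sum_range_sub (fun n => u (n + l)) N
      simp only [zero_add] at h2
      rw [← h2, ← Finset.sum_sub_distrib]
      refine Finset.sum_congr rfl fun n _ => ?_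
      rw [show n + (l + 1) = n + 1 + l by ring]
    have h3 : ∑ n ∈ range N, u (n + (l + 1)) - ∑ n ∈ range N, u n =
        (u (N + l) - u l) + (∑ n ∈ range N, u (n + l) - ∑ n ∈ range N, u n) := by
      rw [← h1]; abel
    rw [h3]
    refine (norm_add_le _ _).trans ?_
    have h4 : ‖u (N + l) - u l‖ ≤ B + B :=
      (norm_sub_le _ _).trans (add_le_add (hu _) (hu _))
    push_cast
    linarith

lemma inner_pow (a b : ℕ) (x : H) :
    inner ℝ ((V ^ (a + b)) x) ((V ^ a) x) = inner ℝ ((V ^ b) x) x := by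
  rw [pow_add_apply', LinearIsometry.inner_map_map]

/-- van der Corput, uniformly in the starting point -/
lemma U1 (r : H) (hr : ∀ q : ℕ, 1 ≤ q → ∀ ε > 0, ∀ᶠ K : ℕ in atTop,
      ‖∑ k ∈ range K, (V ^ (q * k)) r‖ ≤ ε * K) :
    ∀ ε > 0, ∃ K0 : ℕ, ∀ K ≥ K0, ∀ M : ℕ, ‖∑ i ∈ range K, (V ^ ((M + i) ^ 2)) r‖ ≤ ε * K := by
  intro ε hε
  set ρ : ℝ := ‖r‖ with hρ
  have hρ0 : 0 ≤ ρ := norm_nonneg r
  obtain ⟨L, hL⟩ := exists_nat_gt (8 * ρ ^ 2 / ε ^ 2)
  have hL0 : 0 < (L : ℝ) := lt_of_le_of_lt (by positivity) hL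
  set δ : ℝ := ε ^ 2 / (8 * (ρ + 1)) with hδ
  have hδ0 : 0 < δ := by positivity
  have hδρ : δ * ρ ≤ ε ^ 2 / 8 := by
    rw [hδ, div_mul_eq_mul_div, div_le_div_iff₀ (by positivity) (by positivity)]
    nlinarith [sq_nonneg ε]
  have hLρ : 8 * ρ ^ 2 ≤ L * ε ^ 2 := by
    rw [div_lt_iff₀ (by positivity)] at hL
    exact hL.le
  have hev : ∀ᶠ K : ℕ in atTop, ∀ t ∈ Finset.range L, 1 ≤ t →
      ‖∑ k ∈ range K, (V ^ (2 * t * k)) r‖ ≤ δ * K := by
    rw [Finset.eventually_all]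
    intro t _
    by_cases ht : 1 ≤ t
    · filter_upwards [hr (2 * t) (by omega) δ hδ0] with K hK
      exact fun _ => hK
    · exact Eventually.of_forall fun K h => absurd h ht
  obtain ⟨K1, hK1⟩ := eventually_atTop.1 hev
  obtain ⟨K2, hK2⟩ := exists_nat_gt (4 * L * ρ / ε)
  refine ⟨max K1 K2, fun K hK M => ?_⟩
  have hKK1 := hK1 K ((le_max_left _ _).trans hK)
  have hKK2 : 2 * L * ρ ≤ ε / 2 * K := by
    have h1 : (K2 : ℝ) ≤ K := by exact_mod_cast (le_max_right _ _).trans hK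
    rw [div_lt_iff₀ hε] at hK2
    nlinarith
  set x : ℕ → H := fun n => (V ^ ((M + n) ^ 2)) r with hx
  have hxn : ∀ n, ‖x n‖ ≤ ρ := fun n => by rw [hx]; simp only [LinearIsometry.norm_map]; exact le_rfl
  -- correlations
  have hoff : ∀ l' t : ℕ, 1 ≤ t → t < L →
      |∑ n ∈ range K, (inner ℝ (x (n + (l' + t))) (x (n + l')) : ℝ)| ≤ δ * K * ρ := by
    intro l' t ht htL
    have e : ∀ n, (inner ℝ (x (n + (l' + t))) (x (n + l')) : ℝ) =
        inner ℝ ((V ^ (2 * t * (M + l') + t ^ 2)) ((V ^ (2 * t * n)) r)) r := by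
      intro n
      rw [hx]
      simp only
      have e1 : (M + (n + (l' + t))) ^ 2 = (M + (n + l')) ^ 2 +
          ((2 * t * (M + l') + t ^ 2) + 2 * t * n) := by ring
      rw [e1, inner_pow, pow_add_apply']
    rw [Finset.sum_congr rfl fun n _ => e n, ← sum_inner, ← map_sum]
    refine (abs_real_inner_le_norm _ _).trans ?_
    rw [LinearIsometry.norm_map]
    exact mul_le_mul_of_nonneg_right (hKK1 t (Finset.mem_range.2 htL) ht) hρ0
  have hcorr : ∀ l ∈ range L, ∀ l' ∈ range L,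
      ∑ n ∈ range K, (inner ℝ (x (n + l)) (x (n + l')) : ℝ) ≤
        (if l = l' then K * ρ ^ 2 else 0) + δ * K * ρ := by
    intro l hl l' hl'
    rw [Finset.mem_range] at hl hl'
    have hpos : 0 ≤ δ * K * ρ := by positivity
    rcases lt_trichotomy l l' with h | h | h
    · rw [if_neg h.ne, zero_add]
      obtain ⟨t, rfl⟩ := Nat.exists_eq_add_of_le h.le
      have h1 := (abs_le.1 (hoff l t (by omega) (by omega))).2
      have h2 : ∑ n ∈ range K, (inner ℝ (x (n + l)) (x (n + (l + t))) : ℝ) =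
          ∑ n ∈ range K, (inner ℝ (x (n + (l + t))) (x (n + l)) : ℝ) :=
        Finset.sum_congr rfl fun n _ => real_inner_comm _ _
      rw [h2]
      exact h1
    · rw [if_pos h, h]
      have h1 : ∑ n ∈ range K, (inner ℝ (x (n + l')) (x (n + l')) : ℝ) ≤ K * ρ ^ 2 := by
        have h2 : ∀ n ∈ range K, (inner ℝ (x (n + l')) (x (n + l')) : ℝ) ≤ ρ ^ 2 := by
          intro n _
          rw [real_inner_self_eq_norm_sq]
          exact pow_le_pow_left₀ (norm_nonneg _) (hxn _) 2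
        refine (Finset.sum_le_sum h2).trans ?_
        rw [Finset.sum_const, Finset.card_range, nsmul_eq_mul]
      linarith
    · rw [if_neg h.ne', zero_add]
      obtain ⟨t, rfl⟩ := Nat.exists_eq_add_of_le h.le
      exact (abs_le.1 (hoff l' t (by omega) (by omega))).2
  -- the main estimate
  set Y : H := ∑ n ∈ range K, ∑ l ∈ range L, x (n + l) with hY
  have hY1 : ‖Y‖ ^ 2 ≤ K * ∑ n ∈ range K, ‖∑ l ∈ range L, x (n + l)‖ ^ 2 := by
    have h1 : ‖Y‖ ≤ ∑ n ∈ range K, ‖∑ l ∈ range L, x (n + l)‖ := norm_sum_le _ _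
    have h2 := sq_sum_le_card_mul_sum_sq (s := range K)
      (f := fun n => ‖∑ l ∈ range L, x (n + l)‖)
    rw [Finset.card_range] at h2
    exact (pow_le_pow_left₀ (norm_nonneg _) h1 2).trans h2
  have hY2 : ∑ n ∈ range K, ‖∑ l ∈ range L, x (n + l)‖ ^ 2 ≤
      L * (K * ρ ^ 2) + L * (L * (δ * K * ρ)) := by
    have h1 : ∑ n ∈ range K, ‖∑ l ∈ range L, x (n + l)‖ ^ 2 =
        ∑ l ∈ range L, ∑ l' ∈ range L, ∑ n ∈ range K,
          (inner ℝ (x (n + l)) (x (n + l')) : ℝ) := by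
      have h2 : ∀ n ∈ range K, ‖∑ l ∈ range L, x (n + l)‖ ^ 2 =
          ∑ l ∈ range L, ∑ l' ∈ range L, (inner ℝ (x (n + l)) (x (n + l')) : ℝ) := by
        intro n _
        rw [← real_inner_self_eq_norm_sq, sum_inner]
        refine Finset.sum_congr rfl fun l _ => ?_
        rw [inner_sum]
      rw [Finset.sum_congr rfl h2, Finset.sum_comm]
      refine Finset.sum_congr rfl fun l _ => ?_
      rw [Finset.sum_comm]
    rw [h1]
    refine (Finset.sum_le_sum fun l hl => Finset.sum_le_sum fun l' hl' =>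
      hcorr l hl l' hl').trans ?_
    have h3 : ∀ l ∈ range L, ∑ l' ∈ range L, ((if l = l' then (K : ℝ) * ρ ^ 2 else 0) +
        δ * K * ρ) = K * ρ ^ 2 + L * (δ * K * ρ) := by
      intro l hl
      rw [Finset.sum_add_distrib, Finset.sum_ite_eq, if_pos hl, Finset.sum_const,
        Finset.card_range, nsmul_eq_mul]
    rw [Finset.sum_congr rfl h3, Finset.sum_const, Finset.card_range, nsmul_eq_mul]
    exact le_of_eq (by ring)
  have hY3 : ‖Y‖ ≤ L * K * (ε / 2) := by
    refine le_of_sq_le_sq ?_ (by positivity)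
    have hKn : (0 : ℝ) ≤ K := Nat.cast_nonneg K
    calc ‖Y‖ ^ 2 ≤ K * (L * (K * ρ ^ 2) + L * (L * (δ * K * ρ))) :=
          hY1.trans (mul_le_mul_of_nonneg_left hY2 hKn)
      _ = K ^ 2 * L * (ρ ^ 2 + L * (δ * ρ)) := by ring
      _ ≤ K ^ 2 * L * (L * ε ^ 2 / 8 + L * (ε ^ 2 / 8)) := by
          refine mul_le_mul_of_nonneg_left (add_le_add (by linarith) ?_) (by positivity)
          exact mul_le_mul_of_nonneg_left hδρ hL0.le
      _ = (L * K * (ε / 2)) ^ 2 := by ring
  have hS : ‖(L : ℝ) • ∑ n ∈ range K, x n - Y‖ ≤ L * (2 * L * ρ) := by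
    have e : (L : ℝ) • ∑ n ∈ range K, x n - Y =
        ∑ l ∈ range L, (∑ n ∈ range K, x n - ∑ n ∈ range K, x (n + l)) := by
      rw [Finset.sum_sub_distrib, Finset.sum_const, Finset.card_range, hY, Finset.sum_comm,
        Nat.cast_smul_eq_nsmul]
    rw [e]
    refine (norm_sum_le _ _).trans ?_
    have h1 : ∀ l ∈ range L, ‖∑ n ∈ range K, x n - ∑ n ∈ range K, x (n + l)‖ ≤ 2 * L * ρ := by
      intro l hl
      rw [norm_sub_rev]
      refine (sum_shift_le x ρ hxn K l).trans ?_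
      have : (l : ℝ) ≤ L := by exact_mod_cast (Finset.mem_range.1 hl).le
      exact mul_le_mul_of_nonneg_right (by linarith) hρ0
    refine (Finset.sum_le_sum h1).trans ?_
    rw [Finset.sum_const, Finset.card_range, nsmul_eq_mul]
  have hfin : (L : ℝ) * ‖∑ n ∈ range K, x n‖ ≤ L * (ε * K) := by
    have h1 : ‖(L : ℝ) • ∑ n ∈ range K, x n‖ ≤ L * (2 * L * ρ) + L * K * (ε / 2) := by
      have e : (L : ℝ) • ∑ n ∈ range K, x n = ((L : ℝ) • ∑ n ∈ range K, x n - Y) + Y := by abel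
      rw [e]
      exact (norm_add_le _ _).trans (add_le_add hS hY3)
    rw [norm_smul, Real.norm_of_nonneg hL0.le] at h1
    have h2 : L * (2 * L * ρ) ≤ L * (ε / 2 * K) := mul_le_mul_of_nonneg_left hKK2 hL0.le
    linarith
  exact le_of_mul_le_mul_left hfin hL0

/-- the mean ergodic theorem for the powers -/
lemma hrOf [CompleteSpace H] (r : H)
    (hr : ∀ q : ℕ, 1 ≤ q → ∀ v : H, (V ^ q) v = v → inner ℝ v r = 0) :
    ∀ q : ℕ, 1 ≤ q → ∀ ε > 0, ∀ᶠ K : ℕ in atTop,
      ‖∑ k ∈ range K, (V ^ (q * k)) r‖ ≤ ε * K := by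
  intro q hq ε hε
  have h := ((V ^ q).toContinuousLinearMap).tendsto_birkhoffAverage_orthogonalProjection
    (LinearIsometry.norm_toContinuousLinearMap_le _) r
  have h0 : (((V ^ q).toContinuousLinearMap.eqLocus
      (1 : H →L[ℝ] H)).orthogonalProjectionOnto r : H) = 0 := by
    have h1 : r ∈ ((V ^ q).toContinuousLinearMap.eqLocus (1 : H →L[ℝ] H))ᗮ := by
      rw [Submodule.mem_orthogonal]
      intro v hv
      exact hr q hq v hv
    rw [Submodule.orthogonalProjectionOnto_eq_zero_iff.2 h1]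
    rfl
  rw [h0] at h
  have h2 := h.norm
  rw [norm_zero] at h2
  filter_upwards [h2.eventually_le_const hε, eventually_ge_atTop 1] with K hK hK1
  have e : birkhoffAverage ℝ ((V ^ q).toContinuousLinearMap) _root_.id K r =
      (K : ℝ)⁻¹ • ∑ k ∈ range K, (V ^ (q * k)) r := by
    rw [birkhoffAverage, birkhoffSum]
    congr 1
    refine Finset.sum_congr rfl fun k _ => ?_
    rw [pow_mul]
    have h3 : ∀ k : ℕ, (⇑(V ^ q).toContinuousLinearMap)^[k] r = ((V ^ q) ^ k) r := by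
      intro k
      induction k with
      | zero => rfl
      | succ k ih =>
        rw [Function.iterate_succ_apply', ih, pow_succ']
        rfl
    exact h3 k
  rw [e, norm_smul, norm_inv, Real.norm_natCast] at hK
  have hKpos : (0 : ℝ) < K := by exact_mod_cast hK1
  rw [inv_mul_le_iff₀ hKpos] at hK
  linarith

end Pool.Agent.N426.FP
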