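import Pool.Agent.N426.FP.Conc

/-!
# Multiple averages along squares of integer parts of fractional powers, exponents below one

By helper426.
-/

set_option autoImplicit false
set_option linter.unusedSectionVars false

namespace Pool.Agent.N426.FP

open Finset Filter Topology MeasureTheory

variable {X : Type} [MeasurableSpace X] (μ : Measure X) [IsProbabilityMeasure μ]

lemma eLpNorm_bm (G : BM X) : eLpNorm (G : X → ℝ) 2 μ = ENNReal.ofReal (sn μ G) := by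
  have h1 : ‖toL μ G‖ = (eLpNorm (G : X → ℝ) 2 μ).toReal := Lp.norm_toLp _ (bm_memLp μ G)
  rw [sn_apply, h1, ENNReal.ofReal_toReal (bm_memLp μ G).eLpNorm_ne_top]

lemma integral_sq_bm (G : BM X) : ∫ x, ((G : X → ℝ) x) ^ 2 ∂μ = (sn μ G) ^ 2 := by
  have h1 : ‖toL μ G‖ = (eLpNorm (G : X → ℝ) 2 μ).toReal := Lp.norm_toLp _ (bm_memLp μ G)
  rw [(bm_memLp μ G).eLpNorm_eq_integral_rpow_norm (by norm_num) (by norm_num)] at h1
  have h2 : ∫ a, ‖(G : X → ℝ) a‖ ^ (2 : ENNReal).toReal ∂μ = ∫ a, ((G : X → ℝ) a) ^ 2 ∂μ := by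
    refine integral_congr_ae (Eventually.of_forall fun a => ?_)
    simp only [ENNReal.toReal_ofNat, Real.norm_eq_abs]
    rw [show (2 : ℝ) = ((2 : ℕ) : ℝ) by norm_num, Real.rpow_natCast, sq_abs]
  have h3 : 0 ≤ ∫ a, ((G : X → ℝ) a) ^ 2 ∂μ := integral_nonneg fun a => sq_nonneg _
  rw [h2, ENNReal.toReal_ofReal (Real.rpow_nonneg h3 _)] at h1
  rw [sn_apply, h1, ← Real.rpow_natCast, ← Real.rpow_mul h3]
  simp

section main

variable {k : ℕ} (c : Fin k → ℝ) (T : Fin k → X → X) (hT : ∀ i, MeasurePreserving (T i) μ μ)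
  (f F : Fin k → BM X)

/-- the difference between the average and the product of the limits -/
noncomputable def av (N : ℕ) : BM X :=
  (1 / (N : ℝ)) • (∑ n ∈ Icc 1 N, (∏ i, cmp (T i) (hT i).measurable (⌊(n : ℝ) ^ c i⌋₊ ^ 2) (f i)
    - ∏ i, F i))

lemma av_apply (N : ℕ) (hN : 1 ≤ N) (x : X) : ((av μ c T hT f F N : BM X) : X → ℝ) x =
    (1 / (N : ℝ)) * ∑ n ∈ Icc 1 N, ∏ i, (f i : X → ℝ) ((T i)^[⌊(n : ℝ) ^ c i⌋₊ ^ 2] x) -
      ∏ i, (F i : X → ℝ) x := by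
  have hN' : (N : ℝ) ≠ 0 := by
    have : (0 : ℝ) < N := by exact_mod_cast hN
    exact this.ne'
  have e2 : ((av μ c T hT f F N : BM X) : X → ℝ) x = (1 / (N : ℝ)) *
      ((∑ n ∈ Icc 1 N, (∏ i, cmp (T i) (hT i).measurable (⌊(n : ℝ) ^ c i⌋₊ ^ 2) (f i)
    - ∏ i, F i) : BM X) : X → ℝ) x := rfl
  have e3 : ((∑ n ∈ Icc 1 N, (∏ i, cmp (T i) (hT i).measurable (⌊(n : ℝ) ^ c i⌋₊ ^ 2) (f i)
    - ∏ i, F i) : BM X) : X → ℝ) x =
      ∑ n ∈ Icc 1 N, (∏ i, (f i : X → ℝ) ((T i)^[⌊(n : ℝ) ^ c i⌋₊ ^ 2] x) -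
        ∏ i, (F i : X → ℝ) x) := by
    have e4 : ((∑ n ∈ Icc 1 N, (∏ i, cmp (T i) (hT i).measurable (⌊(n : ℝ) ^ c i⌋₊ ^ 2) (f i)
    - ∏ i, F i) : BM X) : X → ℝ) = ∑ n ∈ Icc 1 N,
      (∏ i, ((cmp (T i) (hT i).measurable (⌊(n : ℝ) ^ c i⌋₊ ^ 2) (f i) : BM X) : X → ℝ)
    - ∏ i, ((F i : BM X) : X → ℝ)) := by
      push_cast
      rfl
    rw [e4, Finset.sum_apply]
    refine Finset.sum_congr rfl fun n _ => ?_
    rw [Pi.sub_apply, Finset.prod_apply, Finset.prod_apply]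
    rfl
  rw [e2, e3, Finset.sum_sub_distrib, Finset.sum_const, Nat.card_Icc, Nat.add_sub_cancel,
    nsmul_eq_mul, mul_sub, ← mul_assoc, one_div_mul_cancel hN', one_mul]

/-- the seminorm of the difference tends to zero -/
theorem sn_tendsto (hinj : Function.Injective c) (hc : ∀ i, 0 < c i ∧ c i < 1)
    (B : Fin k → ℝ) (hf : ∀ i, Bd (B i) (f i)) (hF : ∀ i, Bd (B i) (F i))
    (hunif : ∀ i, ∀ ε > 0, ∃ K0 : ℕ, ∀ K ≥ K0, ∀ M : ℕ,
      sn μ (∑ j ∈ range K, (cmp (T i) (hT i).measurable ((M + j) ^ 2) (f i) - F i)) ≤ ε * K) :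
    Tendsto (fun N : ℕ => sn μ (av μ c T hT f F N)) atTop (𝓝 0) := by
  have h := comb_main (fr μ) c hc hinj
    (fun i m => cmp (T i) (hT i).measurable (m ^ 2) (f i)) F B (fun i m x => hf i _) hF
    (fun i ε hε => by
      obtain ⟨K0, hK0⟩ := hunif i ε hε
      exact ⟨max 1 K0, le_max_left _ _, fun M => hK0 _ (le_max_right _ _) M⟩)
    k Finset.univ (by simp)
  rw [Metric.tendsto_atTop]
  intro ε hε
  obtain ⟨N0, hN0⟩ := eventually_atTop.1 (h (ε / 2) (by positivity))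
  refine ⟨max 1 N0, fun N hN => ?_⟩
  have hN1 : (0 : ℝ) < N := by
    have : 1 ≤ N := (le_max_left _ _).trans hN
    exact_mod_cast this
  have h1 := hN0 N ((le_max_right _ _).trans hN)
  rw [Real.dist_eq, sub_zero, abs_of_nonneg (apply_nonneg _ _)]
  have h2 : sn μ (av μ c T hT f F N) ≤ ε / 2 := by
    rw [av, map_smul_eq_mul, Real.norm_of_nonneg (by positivity), one_div,
      inv_mul_le_iff₀ hN1]
    linarith
  linarith

end main

end Pool.Agent.N426.FP
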