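import Pool.Agent.N426.FP.Asym

/-!
# Averages along fractional powers with exponents less than one: products

By helper426.
-/

set_option autoImplicit false
set_option linter.unusedSectionVars false

namespace Pool.Agent.N426.FP

open Finset Filter Topology

section abstr

variable {R : Type} [CommRing R] [Algebra ℝ R]
variable {p : Seminorm ℝ R} {Bd : ℝ → R → Prop}

lemma Fr.prod (h : Fr p Bd) {ι : Type} [DecidableEq ι] (s : Finset ι) (B : ι → ℝ) (f : ι → R)
    (hf : ∀ i ∈ s, Bd (B i) (f i)) : Bd (∏ i ∈ s, B i) (∏ i ∈ s, f i) := by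
  induction s using Finset.induction_on with
  | empty => rw [Finset.prod_empty, Finset.prod_empty]; exact h.one
  | insert a s ha ih =>
    rw [Finset.prod_insert ha, Finset.prod_insert ha]
    exact h.mul _ _ _ _ (hf a (Finset.mem_insert_self a s))
      (ih fun i hi => hf i (Finset.mem_insert_of_mem hi))

/-- averages of products along powers with different exponents less than one -/
theorem comb_main (h : Fr p Bd) {ι : Type} [DecidableEq ι] (c : ι → ℝ)
    (hc : ∀ i, 0 < c i ∧ c i < 1) (hinj : Function.Injective c) (u : ι → ℕ → R) (F : ι → R)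
    (B : ι → ℝ) (hu : ∀ i m, Bd (B i) (u i m)) (hF : ∀ i, Bd (B i) (F i))
    (hunif : ∀ i, ∀ ε > 0, ∃ H : ℕ, 1 ≤ H ∧
      ∀ M, p (∑ j ∈ range H, (u i (M + j) - F i)) ≤ ε * H) :
    ∀ (k : ℕ) (s : Finset ι), s.card = k → ∀ ε > 0, ∀ᶠ N : ℕ in atTop,
      p (∑ n ∈ Icc 1 N, (∏ i ∈ s, u i ⌊(n : ℝ) ^ c i⌋₊ - ∏ i ∈ s, F i)) ≤ ε * N := by
  intro k
  induction k with
  | zero =>
    intro s hs ε hε
    rw [Finset.card_eq_zero] at hs
    refine Eventually.of_forall fun N => ?_
    rw [hs]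
    simp only [Finset.prod_empty, sub_self, Finset.sum_const_zero, map_zero]
    positivity
  | succ k ih =>
    intro s hs ε hε
    obtain ⟨j, hj, hmax⟩ := Finset.exists_max_image s c (Finset.card_pos.1 (by omega))
    have hcard : (s.erase j).card = k := by rw [Finset.card_erase_of_mem hj]; omega
    have hBj : 0 ≤ B j := h.nonneg (hF j)
    obtain ⟨c', hc'0, hc'1, hc'2⟩ : ∃ c' : ℝ, 0 < c' ∧ c' < c j ∧ ∀ i ∈ s.erase j, c i ≤ c' := by
      rcases Finset.eq_empty_or_nonempty (s.erase j) with he | hne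
      · refine ⟨c j / 2, by linarith [(hc j).1], by linarith [(hc j).1], ?_⟩
        rw [he]
        intro i hi
        exact absurd hi (Finset.notMem_empty i)
      · obtain ⟨i, hi, himax⟩ := Finset.exists_max_image (s.erase j) c hne
        refine ⟨c i, (hc i).1, ?_, himax⟩
        rw [Finset.mem_erase] at hi
        exact lt_of_le_of_ne (hmax i hi.2) fun he => hi.1 (hinj he)
    have hu' : ∀ m, p (u j m - F j) ≤ B j + B j := fun m =>
      (map_sub_le_add p _ _).trans (add_le_add (h.le _ _ (hu j m)) (h.le _ _ (hF j)))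
    have hfloor : ∀ (i : ι) (m m' : ℕ), m ≤ m' → ⌊(m : ℝ) ^ c i⌋₊ ≤ ⌊(m' : ℝ) ^ c i⌋₊ :=
      fun i m m' hm => Nat.floor_mono
        (Real.rpow_le_rpow (Nat.cast_nonneg m) (by exact_mod_cast hm) (hc i).1.le)
    have h1 := lemC h (c := c j) (c' := c') (hc j).1 (hc j).2 hc'0 hc'1 (u := u j)
      (W := fun n => ∏ i ∈ s.erase j, u i ⌊(n : ℝ) ^ c i⌋₊) (F := F j)
      (B := B j + B j) (D := ∏ i ∈ s.erase j, B i) (K := ((s.erase j).card : ℝ)) hu'
      (fun n => h.prod _ _ _ fun i _ => hu i _) (hunif j)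
      (fun n => ∑ i ∈ s.erase j, ⌊(n : ℝ) ^ c i⌋₊)
      (fun m m' hm => Finset.sum_le_sum fun i _ => hfloor i m m' hm)
      (fun m m' hm he => by
        have h2 := (Finset.sum_eq_sum_iff_of_le fun i _ => hfloor i m m' hm).1 he
        exact Finset.prod_congr rfl fun i hi => by rw [h2 i hi])
      (Nat.cast_nonneg _)
      (fun n => by
        rw [Nat.cast_sum, ← nsmul_eq_mul]
        refine Finset.sum_le_card_nsmul _ _ _ fun i hi => ?_
        refine (Nat.floor_le (by positivity)).trans ?_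
        rcases Nat.eq_zero_or_pos n with rfl | hn
        · rw [Nat.cast_zero, Real.zero_rpow (hc i).1.ne', Real.zero_rpow hc'0.ne']
        · exact Real.rpow_le_rpow_of_exponent_le (by exact_mod_cast hn) (hc'2 i hi))
      (ε / 2) (by positivity)
    have h2 := ih (s.erase j) hcard (ε / (2 * (B j + 1))) (by positivity)
    filter_upwards [h1, h2] with N hN1 hN2
    have e : ∑ n ∈ Icc 1 N, (∏ i ∈ s, u i ⌊(n : ℝ) ^ c i⌋₊ - ∏ i ∈ s, F i) =
        (∑ n ∈ Icc 1 N, (u j ⌊(n : ℝ) ^ c j⌋₊ - F j) *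
          ∏ i ∈ s.erase j, u i ⌊(n : ℝ) ^ c i⌋₊) +
        F j * ∑ n ∈ Icc 1 N, (∏ i ∈ s.erase j, u i ⌊(n : ℝ) ^ c i⌋₊ -
          ∏ i ∈ s.erase j, F i) := by
      rw [Finset.mul_sum, ← Finset.sum_add_distrib]
      refine Finset.sum_congr rfl fun n _ => ?_
      rw [← Finset.mul_prod_erase s _ hj, ← Finset.mul_prod_erase s F hj]
      ring
    rw [e]
    refine (map_add_le_add p _ _).trans ?_
    have h3 := (h.mul_le (B j) _ _ (hF j)).trans (mul_le_mul_of_nonneg_left hN2 hBj)
    have h4 : B j * (ε / (2 * (B j + 1)) * N) ≤ ε / 2 * N := by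
      have h5 : B j * (ε / (2 * (B j + 1))) ≤ ε / 2 := by
        rw [mul_div_assoc', div_le_div_iff₀ (by positivity) (by positivity)]
        nlinarith
      calc B j * (ε / (2 * (B j + 1)) * N) = B j * (ε / (2 * (B j + 1))) * N := by ring
        _ ≤ ε / 2 * N := mul_le_mul_of_nonneg_right h5 (Nat.cast_nonneg N)
    linarith

end abstr

end Pool.Agent.N426.FP
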