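import Pool.Agent.N426.FP.Comb

/-!
# Averages along fractional powers with exponents less than one: one step

By helper426.
-/

set_option autoImplicit false
set_option linter.unusedSectionVars false

namespace Pool.Agent.N426.FP

open Finset Filter

/-- the first `n` with `⌊n ^ c⌋ ≥ m` -/
noncomputable def nu (c : ℝ) (m : ℕ) : ℕ := ⌈(m : ℝ) ^ (1 / c)⌉₊

lemma level {c : ℝ} (hc : 0 < c) (m n : ℕ) : m ≤ ⌊(n : ℝ) ^ c⌋₊ ↔ nu c m ≤ n := by
  rw [nu, Nat.le_floor_iff (by positivity), Nat.ceil_le]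
  constructor
  · intro h
    have h1 := Real.rpow_le_rpow (Nat.cast_nonneg m) h (show 0 ≤ 1 / c by positivity)
    rwa [← Real.rpow_mul (Nat.cast_nonneg n), mul_one_div, div_self hc.ne', Real.rpow_one] at h1
  · intro h
    have h1 := Real.rpow_le_rpow (by positivity) h hc.le
    rwa [← Real.rpow_mul (Nat.cast_nonneg m), one_div, inv_mul_cancel₀ hc.ne',
      Real.rpow_one] at h1

lemma nu_zero {c : ℝ} (hc : 0 < c) : nu c 0 = 0 := by
  rw [nu, Nat.cast_zero, Real.zero_rpow (by positivity), Nat.ceil_zero]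

lemma nu_mono {c : ℝ} (hc : 0 < c) : Monotone (nu c) := by
  intro a b hab
  refine Nat.ceil_mono (Real.rpow_le_rpow (Nat.cast_nonneg a) (by exact_mod_cast hab) ?_)
  positivity

lemma floor_eq {c : ℝ} (hc : 0 < c) {m n : ℕ} (h1 : nu c m ≤ n) (h2 : n < nu c (m + 1)) :
    ⌊(n : ℝ) ^ c⌋₊ = m := by
  have h3 := (level hc m n).2 h1
  have h4 : ¬ (m + 1 ≤ ⌊(n : ℝ) ^ c⌋₊) := fun h => by
    have := (level hc (m + 1) n).1 h
    omega
  omega

/-- the lengths of the level sets -/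
noncomputable def gg (q : ℝ) (m : ℕ) : ℝ := ((m : ℝ) + 1) ^ q - (m : ℝ) ^ q

lemma gg_nonneg {q : ℝ} (hq : 1 ≤ q) (m : ℕ) : 0 ≤ gg q m :=
  sub_nonneg.2 (Real.rpow_le_rpow (Nat.cast_nonneg m) (by linarith) (by linarith))

lemma gg_mono {q : ℝ} (hq : 1 ≤ q) : Monotone (gg q) := by
  refine monotone_nat_of_le_succ fun m => ?_
  have h := (convexOn_rpow hq).2 (Set.mem_Ici.2 (Nat.cast_nonneg m) : (m : ℝ) ∈ Set.Ici (0 : ℝ))
    (show (m : ℝ) + 2 ∈ Set.Ici (0 : ℝ) by
      rw [Set.mem_Ici]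
      positivity) (show (0 : ℝ) ≤ 1 / 2 by norm_num) (show (0 : ℝ) ≤ 1 / 2 by norm_num)
      (by norm_num)
  simp only [smul_eq_mul] at h
  rw [gg, gg]
  push_cast
  have e1 : (1 : ℝ) / 2 * m + 1 / 2 * (m + 2) = m + 1 := by ring
  have e2 : (m : ℝ) + 1 + 1 = m + 2 := by ring
  rw [e1] at h
  rw [e2]
  linarith

lemma gg_le {q : ℝ} (hq : 1 ≤ q) (m : ℕ) : gg q m ≤ q * ((m : ℝ) + 1) ^ (q - 1) := by
  have hm : (0 : ℝ) < (m : ℝ) + 1 := by positivity
  have h := one_add_mul_self_le_rpow_one_add (s := -1 / ((m : ℝ) + 1)) (by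
    rw [le_div_iff₀ hm]
    have : (0 : ℝ) ≤ m := Nat.cast_nonneg m
    linarith) hq
  have e1 : 1 + -1 / ((m : ℝ) + 1) = m / (m + 1) := by
    field_simp
    ring
  rw [e1, Real.div_rpow (Nat.cast_nonneg m) hm.le] at h
  have hp : 0 < ((m : ℝ) + 1) ^ q := Real.rpow_pos_of_pos hm q
  rw [le_div_iff₀ hp] at h
  have e2 : ((m : ℝ) + 1) ^ q = (m + 1) ^ (q - 1) * (m + 1) := by
    rw [← Real.rpow_add_one hm.ne']
    congr 1
    ring
  have e3 : (1 + q * (-1 / ((m : ℝ) + 1))) * ((m : ℝ) + 1) ^ q =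
      ((m : ℝ) + 1) ^ q - q * ((m : ℝ) + 1) ^ (q - 1) := by
    rw [e2]
    field_simp
    ring
  rw [e3] at h
  rw [gg]
  linarith

lemma nu_sub {c : ℝ} (m : ℕ) :
    |((nu c (m + 1) : ℝ) - nu c m) - gg (1 / c) m| ≤ 1 := by
  have h1 := Nat.le_ceil (((m + 1 : ℕ) : ℝ) ^ (1 / c))
  have h2 := Nat.ceil_lt_add_one (show 0 ≤ ((m + 1 : ℕ) : ℝ) ^ (1 / c) by positivity)
  have h3 := Nat.le_ceil ((m : ℝ) ^ (1 / c))
  have h4 := Nat.ceil_lt_add_one (show 0 ≤ (m : ℝ) ^ (1 / c) by positivity)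
  rw [gg]
  push_cast at h1 h2
  have e : (nu c (m + 1) : ℝ) = ⌈((m : ℝ) + 1) ^ (1 / c)⌉₊ := by
    rw [nu]; push_cast; rfl
  rw [e, nu, abs_le]
  constructor <;> linarith

section abstr

variable {R : Type} [CommRing R] [Algebra ℝ R]
variable {p : Seminorm ℝ R} {Bd : ℝ → R → Prop}

lemma lemC1 (h : Fr p Bd) {c : ℝ} (hc : 0 < c) (hc1 : c < 1) {u W : ℕ → R} {F : R}
    {B D : ℝ} (hu : ∀ m, p (u m - F) ≤ B) (hW : ∀ m, Bd D (W m))
    (β : ℕ → ℕ) (hβ : Monotone β) (hWβ : ∀ m m', m ≤ m' → β m = β m' → W m = W m')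
    (ε C : ℝ) (hA : ∀ m : ℕ, p (∑ l ∈ range m, (u l - F) * W (nu c l)) ≤ ε * m + C)
    (hε : 0 ≤ ε) (M : ℕ) (hM : 1 ≤ M) :
    p (∑ n ∈ range (nu c M), (u ⌊(n : ℝ) ^ c⌋₊ - F) * W n) ≤
      2 * gg (1 / c) (M - 1) * (ε * M + C) + M * (D * B) +
        (gg (1 / c) (M - 1) + 1) * (2 * (D * B)) * β (nu c M) := by
  have hq : 1 ≤ 1 / c := by rw [le_div_iff₀ hc]; linarith
  have hD : 0 ≤ D := h.nonneg (hW 0)
  have hB : 0 ≤ B := (apply_nonneg p _).trans (hu 0)
  have hterm : ∀ l m, p ((u l - F) * W m) ≤ D * B := by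
    intro l m
    rw [mul_comm]
    exact (h.mul_le D _ _ (hW m)).trans (mul_le_mul_of_nonneg_left (hu l) hD)
  -- blocks
  have hblock : ∀ M : ℕ, ∑ n ∈ range (nu c M), (u ⌊(n : ℝ) ^ c⌋₊ - F) * W n =
      ∑ m ∈ range M, ∑ n ∈ Ico (nu c m) (nu c (m + 1)), (u m - F) * W n := by
    intro M
    induction M with
    | zero => rw [nu_zero hc, Finset.range_zero, Finset.sum_empty, Finset.sum_empty]
    | succ M ih =>
      rw [Finset.sum_range_succ, ← ih, Finset.range_eq_Ico, Finset.range_eq_Ico,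
        ← Finset.sum_Ico_consecutive _ (Nat.zero_le _) (nu_mono hc (Nat.le_succ M))]
      congr 1
      refine Finset.sum_congr rfl fun n hn => ?_
      rw [Finset.mem_Ico] at hn
      rw [floor_eq hc hn.1 hn.2]
  rw [hblock M]
  have hsplit : ∀ m, ∑ n ∈ Ico (nu c m) (nu c (m + 1)), (u m - F) * W n =
      gg (1 / c) m • ((u m - F) * W (nu c m)) +
      ((((nu c (m + 1) : ℝ) - nu c m) - gg (1 / c) m) • ((u m - F) * W (nu c m)) +
      ∑ n ∈ Ico (nu c m) (nu c (m + 1)), ((u m - F) * W n - (u m - F) * W (nu c m))) := by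
    intro m
    have hle : nu c m ≤ nu c (m + 1) := nu_mono hc (Nat.le_succ m)
    rw [Finset.sum_sub_distrib, Finset.sum_const, Nat.card_Ico, ← add_assoc, ← add_smul]
    have e : gg (1 / c) m + (((nu c (m + 1) : ℝ) - nu c m) - gg (1 / c) m) =
        ((nu c (m + 1) - nu c m : ℕ) : ℝ) := by
      rw [Nat.cast_sub hle]
      ring
    rw [e, Nat.cast_smul_eq_nsmul]
    abel
  rw [Finset.sum_congr rfl fun m _ => hsplit m, Finset.sum_add_distrib, Finset.sum_add_distrib]
  have hgM : 0 ≤ gg (1 / c) (M - 1) := gg_nonneg hq _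
  have b1 : p (∑ m ∈ range M, gg (1 / c) m • ((u m - F) * W (nu c m))) ≤
      2 * gg (1 / c) (M - 1) * (ε * M + C) := by
    refine lemAbel (gg (1 / c)) (gg_mono hq) (gg_nonneg hq 0) _ _ M hM fun m hm => ?_
    refine (hA m).trans ?_
    have : ε * (m : ℝ) ≤ ε * M := mul_le_mul_of_nonneg_left (by exact_mod_cast hm) hε
    linarith
  have b2 : p (∑ m ∈ range M, (((nu c (m + 1) : ℝ) - nu c m) - gg (1 / c) m) •
      ((u m - F) * W (nu c m))) ≤ M * (D * B) := by
    refine (p_sum_le _ _).trans ?_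
    have h1 : ∀ m ∈ range M, p ((((nu c (m + 1) : ℝ) - nu c m) - gg (1 / c) m) •
        ((u m - F) * W (nu c m))) ≤ D * B := by
      intro m _
      rw [map_smul_eq_mul, Real.norm_eq_abs]
      calc _ ≤ 1 * (D * B) := mul_le_mul (nu_sub m) (hterm m _) (apply_nonneg p _) zero_le_one
        _ = D * B := one_mul _
    refine (Finset.sum_le_sum h1).trans ?_
    rw [Finset.sum_const, Finset.card_range, nsmul_eq_mul]
  have b3 : p (∑ m ∈ range M, ∑ n ∈ Ico (nu c m) (nu c (m + 1)),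
      ((u m - F) * W n - (u m - F) * W (nu c m))) ≤
      (gg (1 / c) (M - 1) + 1) * (2 * (D * B)) * β (nu c M) := by
    refine (p_sum_le _ _).trans ?_
    have h1 : ∀ m ∈ range M, p (∑ n ∈ Ico (nu c m) (nu c (m + 1)),
        ((u m - F) * W n - (u m - F) * W (nu c m))) ≤
        (gg (1 / c) (M - 1) + 1) * (2 * (D * B)) * ((β (nu c (m + 1)) : ℝ) - β (nu c m)) := by
      intro m hm
      have hm' := Finset.mem_range.1 hm
      have hle : nu c m ≤ nu c (m + 1) := nu_mono hc (Nat.le_succ m)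
      by_cases hb : β (nu c m) = β (nu c (m + 1))
      · have h2 : ∑ n ∈ Ico (nu c m) (nu c (m + 1)),
            ((u m - F) * W n - (u m - F) * W (nu c m)) = 0 := by
          refine Finset.sum_eq_zero fun n hn => ?_
          rw [Finset.mem_Ico] at hn
          have h3 := hβ hn.1
          have h4 := hβ hn.2.le
          rw [hWβ (nu c m) n hn.1 (by omega), sub_self]
        rw [h2, map_zero, hb, sub_self, mul_zero]
      · have h3 := hβ hle
        have h4 : β (nu c m) + 1 ≤ β (nu c (m + 1)) := by omega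
        have h5 : ((β (nu c m) + 1 : ℕ) : ℝ) ≤ β (nu c (m + 1)) := by exact_mod_cast h4
        push_cast at h5
        have h6 : p (∑ n ∈ Ico (nu c m) (nu c (m + 1)),
            ((u m - F) * W n - (u m - F) * W (nu c m))) ≤
            ((nu c (m + 1) : ℝ) - nu c m) * (2 * (D * B)) := by
          refine (p_sum_le _ _).trans ?_
          have h7 : ∀ n ∈ Ico (nu c m) (nu c (m + 1)),
              p ((u m - F) * W n - (u m - F) * W (nu c m)) ≤ 2 * (D * B) := by
            intro n _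
            have h8 := map_sub_le_add p ((u m - F) * W n) ((u m - F) * W (nu c m))
            have h9 := hterm m n
            have h10 := hterm m (nu c m)
            linarith
          refine (Finset.sum_le_sum h7).trans ?_
          rw [Finset.sum_const, Nat.card_Ico, nsmul_eq_mul, Nat.cast_sub hle]
        have h7 : (nu c (m + 1) : ℝ) - nu c m ≤ gg (1 / c) (M - 1) + 1 := by
          have h8 := (abs_le.1 (nu_sub (c := c) m)).2
          have h9 := gg_mono hq (show m ≤ M - 1 by omega)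
          linarith
        have h8 : 0 ≤ 2 * (D * B) := by positivity
        have h9 := mul_le_mul_of_nonneg_right h7 h8
        have h10 : (gg (1 / c) (M - 1) + 1) * (2 * (D * B)) * 1 ≤
            (gg (1 / c) (M - 1) + 1) * (2 * (D * B)) *
              ((β (nu c (m + 1)) : ℝ) - β (nu c m)) :=
          mul_le_mul_of_nonneg_left (by linarith) (by positivity)
        linarith
    refine (Finset.sum_le_sum h1).trans ?_
    rw [← Finset.mul_sum, Finset.sum_range_sub (fun m => (β (nu c m) : ℝ))]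
    refine mul_le_mul_of_nonneg_left ?_ (by positivity)
    have : (0 : ℝ) ≤ β (nu c 0) := Nat.cast_nonneg _
    linarith
  have t1 := map_add_le_add p (∑ m ∈ range M, gg (1 / c) m • ((u m - F) * W (nu c m)))
    (∑ m ∈ range M, (((nu c (m + 1) : ℝ) - nu c m) - gg (1 / c) m) •
      ((u m - F) * W (nu c m)) + ∑ m ∈ range M, ∑ n ∈ Ico (nu c m) (nu c (m + 1)),
      ((u m - F) * W n - (u m - F) * W (nu c m)))
  have t2 := map_add_le_add p (∑ m ∈ range M, (((nu c (m + 1) : ℝ) - nu c m) - gg (1 / c) m) •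
      ((u m - F) * W (nu c m))) (∑ m ∈ range M, ∑ n ∈ Ico (nu c m) (nu c (m + 1)),
      ((u m - F) * W n - (u m - F) * W (nu c m)))
  linarith

end abstr

end Pool.Agent.N426.FP
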