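import Pool.Agent.N426.FP.Main

/-!
# Totally ergodic transformations

By helper426.
-/

set_option autoImplicit false
set_option linter.unusedSectionVars false

namespace Pool.Agent.N426.FP

open Finset Filter Topology MeasureTheory

variable {X : Type} [MeasurableSpace X] (μ : Measure X) [IsProbabilityMeasure μ]

lemma kp_pow_coe (T : X → X) (hT : MeasurePreserving T μ μ) (q : ℕ) (v : Lp ℝ 2 μ) :
    ((kp μ T hT ^ q) v : X → ℝ) =ᵐ[μ] (v : X → ℝ) ∘ T^[q] := by
  induction q generalizing v with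
  | zero => exact Filter.EventuallyEq.rfl
  | succ q ih =>
    have e : (kp μ T hT ^ (q + 1)) v = (kp μ T hT ^ q) (kp μ T hT v) := by
      rw [pow_succ]; rfl
    rw [e]
    refine (ih _).trans ?_
    have h1 : (kp μ T hT v : X → ℝ) =ᵐ[μ] (v : X → ℝ) ∘ T :=
      Lp.coeFn_compMeasurePreserving v hT
    have h2 := (hT.iterate q).quasiMeasurePreserving.ae_eq_comp h1
    refine h2.trans ?_
    rw [Function.iterate_succ']
    exact Filter.EventuallyEq.rfl

/-- a constant function -/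
def cst (X : Type) [MeasurableSpace X] (a : ℝ) : BM X := algebraMap ℝ (BM X) a

lemma cst_apply (a : ℝ) (x : X) : (cst X a : X → ℝ) x = a := rfl

lemma te_unif (T : X → X) (hT : MeasurePreserving T μ μ)
    (he : ∀ n : ℕ, 1 ≤ n → Ergodic (T^[n]) μ) (f : BM X) :
    ∀ ε > 0, ∃ K0 : ℕ, ∀ K ≥ K0, ∀ M : ℕ, sn μ (∑ i ∈ range K,
      (cmp T hT.measurable ((M + i) ^ 2) f - cst X (∫ x, (f : X → ℝ) x ∂μ))) ≤ ε * K := by
  set a : ℝ := ∫ x, (f : X → ℝ) x ∂μ with ha
  set r : BM X := f - cst X a with hr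
  have hfi : Integrable (f : X → ℝ) μ := (bm_memLp μ f).integrable (by norm_num)
  have hr0 : ∫ x, (r : X → ℝ) x ∂μ = 0 := by
    have e : ∀ x, (r : X → ℝ) x = (f : X → ℝ) x - a := fun x => rfl
    simp_rw [e]
    rw [integral_sub hfi (integrable_const a), ← ha]
    simp
  have hU := U1 (kp μ T hT) (toL μ r) (hrOf (kp μ T hT) (toL μ r) (fun q hq v hv => by
    have h1 : (v : X → ℝ) ∘ T^[q] =ᵐ[μ] (v : X → ℝ) := by
      have h2 := kp_pow_coe μ T hT q v
      rw [hv] at h2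
      exact h2.symm
    obtain ⟨b, hb⟩ := (he q hq).ae_eq_const_of_ae_eq_comp_ae
      (Lp.aestronglyMeasurable v) h1
    rw [L2.inner_def]
    have h3 : ∫ x, inner ℝ ((v : X → ℝ) x) ((toL μ r : X → ℝ) x) ∂μ =
        ∫ x, b * (r : X → ℝ) x ∂μ := by
      refine integral_congr_ae ?_
      filter_upwards [hb, toL_coe μ r] with x hx1 hx2
      rw [hx1, hx2]
      simp [mul_comm]
    rw [h3, integral_const_mul, hr0, mul_zero]))
  intro ε hε
  obtain ⟨K0, hK0⟩ := hU ε hε
  refine ⟨K0, fun K hK M => ?_⟩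
  have e : ∑ i ∈ range K, (cmp T hT.measurable ((M + i) ^ 2) f - cst X a) =
      ∑ i ∈ range K, cmp T hT.measurable ((M + i) ^ 2) r := by
    refine Finset.sum_congr rfl fun i _ => ?_
    apply Subtype.ext
    funext x
    rfl
  rw [e, sn_apply, ← sqs_toL]
  exact hK0 K hK M

/-- joint ergodicity for bounded measurable functions -/
theorem te_main {k : ℕ} (c : Fin k → ℝ) (hinj : Function.Injective c)
    (hc : ∀ i, 0 < c i ∧ c i < 1) (T : Fin k → X → X) (hT : ∀ i, MeasurePreserving (T i) μ μ)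
    (he : ∀ i, ∀ n : ℕ, 1 ≤ n → Ergodic ((T i)^[n]) μ) (f : Fin k → BM X) :
    Tendsto (fun N : ℕ => ∫ x, ((1 / (N : ℝ)) * ∑ n ∈ Finset.Icc 1 N,
      ∏ i, (f i : X → ℝ) ((T i)^[⌊(n : ℝ) ^ (c i)⌋₊ ^ 2] x)
        - ∏ i, ∫ y, (f i : X → ℝ) y ∂μ) ^ 2 ∂μ) atTop (𝓝 0) := by
  choose C hC using fun i => (f i).2.2
  have hcst : ∀ i, |∫ y, (f i : X → ℝ) y ∂μ| ≤ C i := by
    intro i
    have h := norm_integral_le_of_norm_le_const (μ := μ) (f := (f i : X → ℝ)) (C := C i)
      (Eventually.of_forall fun x => hC i x)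
    simpa using h
  have h := sn_tendsto μ c T hT f (fun i => cst X (∫ y, (f i : X → ℝ) y ∂μ)) hinj hc C hC
    (fun i x => hcst i) (fun i => te_unif μ (T i) (hT i) (he i) (f i))
  have h2 := h.pow 2
  rw [zero_pow two_ne_zero] at h2
  refine h2.congr' ?_
  filter_upwards [eventually_ge_atTop 1] with N hN
  rw [← integral_sq_bm]
  refine integral_congr_ae (Eventually.of_forall fun x => ?_)
  simp only [av_apply μ c T hT f _ N hN x]
  rfl

/-- a bounded measurable representative -/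
lemma exists_rep (g : X → ℝ) (hg : MemLp g ⊤ μ) : ∃ f : BM X, g =ᵐ[μ] (f : X → ℝ) := by
  have h1 : eLpNormEssSup g μ < ⊤ := by
    have := hg.2
    rwa [eLpNorm_exponent_top] at this
  set C : ℝ := (eLpNormEssSup g μ).toReal with hC
  have hC0 : 0 ≤ C := ENNReal.toReal_nonneg
  have h2 : ∀ᵐ x ∂μ, |g x| ≤ C := by
    filter_upwards [enorm_ae_le_eLpNormEssSup g μ] with x hx
    have h3 := ENNReal.toReal_mono h1.ne hx
    rwa [toReal_enorm, Real.norm_eq_abs] at h3
  refine ⟨⟨fun x => tr C (hg.1.mk g x), ?_, C, fun x => tr_abs_le hC0 _⟩, ?_⟩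
  · exact measurable_const.max (measurable_const.min hg.1.stronglyMeasurable_mk.measurable)
  · filter_upwards [h2, hg.1.ae_eq_mk] with x hx1 hx2
    rw [← hx2, tr_eq hx1]

end Pool.Agent.N426.FP
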